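import Mathlib

/-!
# Alternating sequences of two sets on a line
-/

set_option autoImplicit false

namespace Q200.HGA

variable {α β : Type}

/-- The label `true` means `A \ B`, the label `false` means `B \ A`. -/
def lab (A B : α → Prop) (b : Bool) (x : α) : Prop :=
  if b = true then A x ∧ ¬ B x else B x ∧ ¬ A x

/-- The labels of the members of the list alternate, starting with `b`. -/
def AltL (A B : α → Prop) : Bool → List α → Prop
  | _, [] => True
  | b, x :: l => lab A B b x ∧ AltL A B (!b) l

/-- Iterated negation. -/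
def flipN : ℕ → Bool → Bool
  | 0, b => b
  | n + 1, b => flipN n (!b)

theorem flipN_not (n : ℕ) (b : Bool) : flipN n (!b) = !(flipN n b) := by
  induction n generalizing b with
  | zero => rfl
  | succ n ih => simp only [flipN, ih]

theorem altL_append {A B : α → Prop} (b : Bool) (l l' : List α) :
    AltL A B b (l ++ l') ↔ AltL A B b l ∧ AltL A B (flipN l.length b) l' := by
  induction l generalizing b with
  | nil => simp [AltL, flipN]
  | cons x l ih =>
    rw [List.cons_append]
    simp only [AltL, List.length_cons, flipN]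
    rw [ih]
    tauto

theorem lab_swap (A B : α → Prop) (b : Bool) (x : α) : lab A B b x ↔ lab B A (!b) x := by
  cases b <;> simp [lab]

theorem altL_swap (A B : α → Prop) (b : Bool) (l : List α) :
    AltL A B b l ↔ AltL B A (!b) l := by
  induction l generalizing b with
  | nil => simp [AltL]
  | cons x l ih => simp only [AltL]; rw [lab_swap, ih]

theorem altL_map {A B : α → Prop} {A' B' : β → Prop} {φ : α → β} {b : Bool} {l : List α}
    (hA : ∀ x ∈ l, A x ↔ A' (φ x)) (hB : ∀ x ∈ l, B x ↔ B' (φ x)) :
    AltL A' B' b (l.map φ) ↔ AltL A B b l := by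
  induction l generalizing b with
  | nil => simp [AltL]
  | cons x l ih =>
    simp only [List.map_cons, AltL]
    rw [ih (fun y hy => hA y (by simp [hy])) (fun y hy => hB y (by simp [hy]))]
    have h1 := hA x (by simp)
    have h2 := hB x (by simp)
    cases b <;> simp [lab, h1, h2]

theorem altL_take {A B : α → Prop} {b : Bool} {l : List α} (n : ℕ) (h : AltL A B b l) :
    AltL A B b (l.take n) := by
  rw [← List.take_append_drop n l, altL_append] at h
  exact h.1

/-- If one label does not occur then the list has at most one element. -/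
theorem altL_mono {A B : α → Prop} {b : Bool} {l : List α} (c : Bool) (h : AltL A B b l)
    (hc : ∀ x ∈ l, ¬ lab A B c x) : l.length ≤ 1 := by
  match l, h, hc with
  | [], _, _ => simp
  | [x], _, _ => simp
  | x :: y :: l, h, hc =>
    exfalso
    simp only [AltL] at h
    have h1 := hc x (by simp)
    have h2 := hc y (by simp)
    cases b <;> cases c <;> simp_all

/-- The sets `A`, `B` form an alternating sequence of length `t`, starting with `A \ B`, on the
line. -/
def Alt (t : ℕ) (f : α → ℤ) (S A B : α → Prop) : Prop :=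
  ∃ l : List α, l.length = t ∧ (∀ x ∈ l, S x) ∧ l.Pairwise (fun x y => f x < f y) ∧
    AltL A B true l

/-- The hypergraph with vertex set `S` and edge family `E` is free of alternating sequences of
length `t` for some linear order. -/
def GFree (t : ℕ) (S : α → Prop) (E : Set (α → Prop)) : Prop :=
  ∃ f : α → ℤ, Set.InjOn f {x | S x} ∧ ∀ A ∈ E, ∀ B ∈ E, ¬ Alt t f S A B

theorem Alt.of_le {t : ℕ} {f : α → ℤ} {S A B : α → Prop} {l : List α} (hl : t ≤ l.length)
    (hS : ∀ x ∈ l, S x) (hs : l.Pairwise (fun x y => f x < f y)) (h : AltL A B true l) :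
    Alt t f S A B :=
  ⟨l.take t, by simpa using hl, fun x hx => hS x (List.mem_of_mem_take hx),
    hs.sublist (List.take_sublist _ _), altL_take _ h⟩

theorem Alt.of_le' {t : ℕ} {f : α → ℤ} {S A B : α → Prop} {b : Bool} {l : List α}
    (hl : t ≤ l.length) (hS : ∀ x ∈ l, S x) (hs : l.Pairwise (fun x y => f x < f y))
    (h : AltL A B b l) : Alt t f S A B ∨ Alt t f S B A := by
  cases b with
  | true => exact Or.inl (Alt.of_le hl hS hs h)
  | false => exact Or.inr (Alt.of_le hl hS hs ((altL_swap A B false l).1 h))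

theorem Alt.map {t : ℕ} {f : α → ℤ} {S A B : α → Prop} {g : β → ℤ} {S' A' B' : β → Prop}
    (φ : α → β) (hS : ∀ x, S x → S' (φ x)) (hf : ∀ x, S x → g (φ x) = f x)
    (hA : ∀ x, S x → (A x ↔ A' (φ x))) (hB : ∀ x, S x → (B x ↔ B' (φ x)))
    (h : Alt t f S A B) : Alt t g S' A' B' := by
  obtain ⟨l, h1, h2, h3, h4⟩ := h
  refine ⟨l.map φ, by simpa using h1, ?_, ?_, ?_⟩
  · intro y hy
    obtain ⟨x, hx, rfl⟩ := List.mem_map.1 hy
    exact hS x (h2 x hx)
  · rw [List.pairwise_map]
    refine h3.imp_of_mem ?_
    intro x y hx hy hxy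
    rw [hf x (h2 x hx), hf y (h2 y hy)]
    exact hxy
  · rw [altL_map (fun x hx => hA x (h2 x hx)) (fun x hx => hB x (h2 x hx))]
    exact h4

/-- An empty edge does not matter. -/
theorem not_alt_of_empty {t : ℕ} (ht : 2 ≤ t) {f : α → ℤ} {S A B : α → Prop}
    (h : (∀ x, S x → ¬ A x) ∨ (∀ x, S x → ¬ B x)) : ¬ Alt t f S A B := by
  rintro ⟨l, h1, h2, h3, h4⟩
  have : l.length ≤ 1 := by
    rcases h with h | h
    · exact altL_mono true h4 (fun x hx h' => h x (h2 x hx) (by simp [lab] at h'; exact h'.1))
    · exact altL_mono false h4 (fun x hx h' => h x (h2 x hx) (by simp [lab] at h'; exact h'.1))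
  omega

/-- A sorted list is split by a threshold. -/
theorem split_sorted {f : α → ℤ} {l : List α} (hs : l.Pairwise (fun x y => f x < f y)) (c d : ℤ)
    (h : ∀ x ∈ l, f x < c ∨ d < f x) :
    ∃ l1 l2, l = l1 ++ l2 ∧ (∀ x ∈ l1, f x < c) ∧ ∀ x ∈ l2, d < f x := by
  induction l with
  | nil => exact ⟨[], [], rfl, by simp, by simp⟩
  | cons x l ih =>
    rw [List.pairwise_cons] at hs
    rcases h x (by simp) with hx | hx
    · obtain ⟨l1, l2, e, h1, h2⟩ := ih hs.2 (fun y hy => h y (by simp [hy]))
      refine ⟨x :: l1, l2, by rw [e]; rfl, ?_, h2⟩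
      intro y hy
      rcases List.mem_cons.1 hy with rfl | hy
      · exact hx
      · exact h1 y hy
    · refine ⟨[], x :: l, rfl, by simp, ?_⟩
      intro y hy
      rcases List.mem_cons.1 hy with rfl | hy
      · exact hx
      · have := hs.1 y hy
        omega

theorem pairwise_app {f : α → ℤ} {l1 l2 : List α} (h1 : l1.Pairwise (fun x y => f x < f y))
    (h2 : l2.Pairwise (fun x y => f x < f y)) (h : ∀ x ∈ l1, ∀ y ∈ l2, f x < f y) :
    (l1 ++ l2).Pairwise (fun x y => f x < f y) := List.pairwise_append.2 ⟨h1, h2, h⟩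

end Q200.HGA
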