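import Pool.Agent.Q200.HGA.Alt
import Pool.Agent.H495R3.CySat2

/-!
# From non-separation constraints to hypergraphs without alternating sequences of length four

The vertices are the pairs `(u, i)` of an element `u` and a level `i ≤ T`, where `T` is the number of
constraints.  The edges are: the blocks `{(u, i) : i ≤ T}` of the elements; the level zero; for the
constraint number `j`, saying that `{a, b}` does not separate `{z, c}`, the two sets that consist of
all vertices of level at most `j` and of the two vertices `(a, j + 1), (b, j + 1)`, respectively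
`(z, j + 1), (c, j + 1)`.
-/

set_option autoImplicit false

namespace Q200.HGA

open Pool.Agent.H495R3 Pool.Agent.H495R3.Cy

section NonSep

variable {V : Type} {f : V → ℤ}

theorem btw_xor {u v x : V} (h1 : f u ≠ f x) (h2 : f v ≠ f x) :
    Cy.Btw f u v x ↔ ¬ (f u < f x ↔ f v < f x) := by
  unfold Cy.Btw
  omega

theorem nonSep_repl {p p' q y z : V} (hp1 : f p ≠ f y) (hp2 : f p ≠ f z) (hp1' : f p' ≠ f y)
    (hp2' : f p' ≠ f z) (hq1 : f q ≠ f y) (hq2 : f q ≠ f z) (h : NonSep f p p' y z)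
    (h1 : NonSep f p q y z) : NonSep f p' q y z := by
  unfold NonSep at *
  rw [btw_xor hp1 hp1', btw_xor hp2 hp2'] at h
  rw [btw_xor hp1 hq1, btw_xor hp2 hq2] at h1
  rw [btw_xor hp1' hq1, btw_xor hp2' hq2]
  tauto

theorem nonSep_swap1 {u v x y : V} (h : NonSep f u v x y) : NonSep f v u x y := by
  unfold NonSep Cy.Btw at *
  rw [or_comm, h, or_comm]

theorem nonSep_swap2 {u v x y : V} (h : NonSep f u v x y) : NonSep f u v y x := Iff.symm h

/-- An alternating sequence of length four gives a separation. -/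
theorem alt4_sep {S A B : V → Prop} (h : Alt 4 f S A B) :
    ∃ a a' b b', S a ∧ S a' ∧ S b ∧ S b' ∧ (A a ∧ ¬ B a) ∧ (A a' ∧ ¬ B a') ∧ (B b ∧ ¬ A b) ∧
      (B b' ∧ ¬ A b') ∧ ¬ NonSep f a a' b b' := by
  obtain ⟨l, hl, hS, hs, ha⟩ := h
  match l, hl, hS, hs, ha with
  | [x1, x2, x3, x4], _, hS, hs, ha =>
    simp only [List.pairwise_cons, List.mem_cons, List.not_mem_nil, or_false,
      forall_eq_or_imp, forall_eq, List.Pairwise.nil, and_true] at hs
    simp only [AltL, lab, Bool.not_true, Bool.not_false, if_true, Bool.false_eq_true, if_false,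
      and_true] at ha
    refine ⟨x1, x3, x2, x4, hS _ (by simp), hS _ (by simp), hS _ (by simp), hS _ (by simp),
      ha.1, ha.2.2.1, ha.2.1, ha.2.2.2, ?_⟩
    unfold NonSep Cy.Btw
    omega

/-- A separation gives an alternating sequence of length four. -/
theorem nonSep_of_free {S A B : V → Prop} (h : ¬ Alt 4 f S A B) (h' : ¬ Alt 4 f S B A)
    {a a' b b' : V} (ha : S a) (ha' : S a') (hb : S b) (hb' : S b') (h1 : A a ∧ ¬ B a)
    (h2 : A a' ∧ ¬ B a') (h3 : B b ∧ ¬ A b) (h4 : B b' ∧ ¬ A b')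
    (hf : Set.InjOn f {x | S x}) : NonSep f a a' b b' := by
  have hne : ∀ x y, S x → S y → A x → ¬ A y → f x ≠ f y := by
    intro x y hx hy h1 h2 h
    rw [hf hx hy h] at h1
    exact h2 h1
  have e1 := hne a b ha hb h1.1 h3.2
  have e2 := hne a b' ha hb' h1.1 h4.2
  have e3 := hne a' b ha' hb h2.1 h3.2
  have e4 := hne a' b' ha' hb' h2.1 h4.2
  have key : ∀ {A B : V → Prop} {x1 x2 x3 x4 : V}, S x1 → S x2 → S x3 → S x4 →
      (A x1 ∧ ¬ B x1) → (B x2 ∧ ¬ A x2) → (A x3 ∧ ¬ B x3) → (B x4 ∧ ¬ A x4) →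
      f x1 < f x2 → f x2 < f x3 → f x3 < f x4 → Alt 4 f S A B := by
    intro A B x1 x2 x3 x4 s1 s2 s3 s4 l1 l2 l3 l4 o1 o2 o3
    refine ⟨[x1, x2, x3, x4], rfl, ?_, ?_, ?_⟩
    · intro x hx
      simp only [List.mem_cons, List.not_mem_nil, or_false] at hx
      rcases hx with rfl | rfl | rfl | rfl <;> assumption
    · simp only [List.pairwise_cons, List.mem_cons, List.not_mem_nil, or_false,
        forall_eq_or_imp, forall_eq, List.Pairwise.nil, and_true, false_implies, implies_true]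
      omega
    · simp only [AltL, lab, Bool.not_true, Bool.not_false, if_true, Bool.false_eq_true, if_false,
        and_true]
      exact ⟨l1, l2, l3, l4⟩
  by_contra hcon
  unfold NonSep Cy.Btw at hcon
  have hcases : (f a < f b ∧ f b < f a' ∧ f a' < f b') ∨ (f b' < f a ∧ f a < f b ∧ f b < f a') ∨
      (f a' < f b ∧ f b < f a ∧ f a < f b') ∨ (f b' < f a' ∧ f a' < f b ∧ f b < f a) ∨
      (f a < f b' ∧ f b' < f a' ∧ f a' < f b) ∨ (f b < f a ∧ f a < f b' ∧ f b' < f a') ∨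
      (f a' < f b' ∧ f b' < f a ∧ f a < f b) ∨ (f b < f a' ∧ f a' < f b' ∧ f b' < f a) := by
    by_cases c1 : (f a < f b ∧ f b < f a') ∨ (f a' < f b ∧ f b < f a)
    · by_cases c2 : (f a < f b' ∧ f b' < f a') ∨ (f a' < f b' ∧ f b' < f a)
      · exact absurd (iff_of_true c1 c2) hcon
      · rcases c1 with c1 | c1 <;> omega
    · by_cases c2 : (f a < f b' ∧ f b' < f a') ∨ (f a' < f b' ∧ f b' < f a)
      · rcases c2 with c2 | c2 <;> omega
      · exact absurd (iff_of_false c1 c2) hcon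
  rcases hcases with ⟨o1, o2, o3⟩ | ⟨o1, o2, o3⟩ | ⟨o1, o2, o3⟩ | ⟨o1, o2, o3⟩ | ⟨o1, o2, o3⟩ |
    ⟨o1, o2, o3⟩ | ⟨o1, o2, o3⟩ | ⟨o1, o2, o3⟩
  · exact h (key ha hb ha' hb' h1 h3 h2 h4 o1 o2 o3)
  · exact h' (key hb' ha hb ha' h4 h1 h3 h2 o1 o2 o3)
  · exact h (key ha' hb ha hb' h2 h3 h1 h4 o1 o2 o3)
  · exact h' (key hb' ha' hb ha h4 h2 h3 h1 o1 o2 o3)
  · exact h (key ha hb' ha' hb h1 h4 h2 h3 o1 o2 o3)
  · exact h' (key hb ha hb' ha' h3 h1 h4 h2 o1 o2 o3)
  · exact h (key ha' hb' ha hb h2 h4 h1 h3 o1 o2 o3)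
  · exact h' (key hb ha' hb' ha h3 h2 h4 h1 o1 o2 o3)

end NonSep

/-! ### The hypergraph -/

/-- Incidence: the edge `(0, u)` is a block, `(1, _)` is the level zero, `(2, j)` and `(3, j)` are
the edges of the constraint number `j`. -/
def inc (Q : List Quad) (x : ℕ × ℕ) (e : ℕ × ℕ) : Bool :=
  if e.1 = 0 then decide (x.1 = e.2) else if e.1 = 1 then decide (x.2 = 0) else
    if e.1 = 2 then decide (x.2 < e.2 + 1) || (decide (x.2 = e.2 + 1) &&
      (decide (x.1 = (Q.getD e.2 (0, 0, 0, 0)).1) ||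
        decide (x.1 = (Q.getD e.2 (0, 0, 0, 0)).2.2.1)))
    else decide (x.2 < e.2 + 1) || (decide (x.2 = e.2 + 1) &&
      (decide (x.1 = (Q.getD e.2 (0, 0, 0, 0)).2.1) ||
        decide (x.1 = (Q.getD e.2 (0, 0, 0, 0)).2.2.2)))

/-- The vertices. -/
def verts (E : List ℕ) (Q : List Quad) : List (ℕ × ℕ) :=
  E.flatMap (fun u => (List.range (Q.length + 1)).map (fun i => (u, i)))

/-- The names of the edges. -/
def cols (E : List ℕ) (Q : List Quad) : List (ℕ × ℕ) :=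
  E.map (fun u => (0, u)) ++ ((1, 0) :: ((List.range Q.length).map (fun j => (2, j)) ++
    (List.range Q.length).map (fun j => (3, j))))

theorem mem_verts {E : List ℕ} {Q : List Quad} (x : ℕ × ℕ) :
    x ∈ verts E Q ↔ x.1 ∈ E ∧ x.2 ≤ Q.length := by
  obtain ⟨u, i⟩ := x
  simp only [verts, List.mem_flatMap, List.mem_map, List.mem_range, Prod.mk.injEq]
  constructor
  · rintro ⟨v, hv, k, hk, rfl, rfl⟩
    exact ⟨hv, by omega⟩
  · rintro ⟨h1, h2⟩
    exact ⟨u, h1, i, by omega, rfl, rfl⟩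

theorem mem_cols {E : List ℕ} {Q : List Quad} (e : ℕ × ℕ) :
    e ∈ cols E Q ↔ (∃ u ∈ E, e = (0, u)) ∨ e = (1, 0) ∨
      ∃ j < Q.length, e = (2, j) ∨ e = (3, j) := by
  simp only [cols, List.mem_append, List.mem_map, List.mem_cons, List.mem_range]
  constructor
  · rintro (⟨u, hu, rfl⟩ | rfl | ⟨j, hj, rfl⟩ | ⟨j, hj, rfl⟩)
    · exact Or.inl ⟨u, hu, rfl⟩
    · exact Or.inr (Or.inl rfl)
    · exact Or.inr (Or.inr ⟨j, hj, Or.inl rfl⟩)
    · exact Or.inr (Or.inr ⟨j, hj, Or.inr rfl⟩)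
  · rintro (⟨u, hu, rfl⟩ | rfl | ⟨j, hj, rfl | rfl⟩)
    · exact Or.inl ⟨u, hu, rfl⟩
    · exact Or.inr (Or.inl rfl)
    · exact Or.inr (Or.inr (Or.inl ⟨j, hj, rfl⟩))
    · exact Or.inr (Or.inr (Or.inr ⟨j, hj, rfl⟩))

/-- The edges as predicates. -/
def edgesQ (E : List ℕ) (Q : List Quad) : Set (ℕ × ℕ → Prop) :=
  {A | ∃ e ∈ cols E Q, A = fun x => inc Q x e = true}

theorem inc_blk {Q : List Quad} {x : ℕ × ℕ} {u : ℕ} : inc Q x (0, u) = true ↔ x.1 = u := by
  simp [inc]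

theorem inc_zero {Q : List Quad} {x : ℕ × ℕ} : inc Q x (1, 0) = true ↔ x.2 = 0 := by
  simp [inc]

theorem inc_two {Q : List Quad} {x : ℕ × ℕ} {j : ℕ} (hj : j < Q.length) :
    inc Q x (2, j) = true ↔ x.2 < j + 1 ∨ x.2 = j + 1 ∧ (x.1 = Q[j].1 ∨ x.1 = Q[j].2.2.1) := by
  simp only [inc, OfNat.ofNat_ne_zero, OfNat.ofNat_ne_one, if_false, if_true, Bool.or_eq_true,
    Bool.and_eq_true, decide_eq_true_eq, getD_quad hj]

theorem inc_three {Q : List Quad} {x : ℕ × ℕ} {j : ℕ} (hj : j < Q.length) :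
    inc Q x (3, j) = true ↔ x.2 < j + 1 ∨ x.2 = j + 1 ∧ (x.1 = Q[j].2.1 ∨ x.1 = Q[j].2.2.2) := by
  have h : (3 : ℕ) ≠ 2 := by norm_num
  simp only [inc, OfNat.ofNat_ne_zero, OfNat.ofNat_ne_one, h, if_false, Bool.or_eq_true,
    Bool.and_eq_true, decide_eq_true_eq, getD_quad hj]

variable {E : List ℕ} {Q : List Quad}

/-! ### A solution gives an order -/

/-- The position of a vertex. -/
def posQ (Q : List Quad) (g : ℕ → ℤ) (x : ℕ × ℕ) : ℤ := g x.1 * (Q.length + 1) + x.2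

theorem posQ_lt {g : ℕ → ℤ} {x y : ℕ × ℕ} (hx : x.2 ≤ Q.length) (h : g x.1 < g y.1) :
    posQ Q g x < posQ Q g y := by
  unfold posQ
  have h2 : g x.1 + 1 ≤ g y.1 := h
  have h3 : (g x.1 + 1) * ((Q.length : ℤ) + 1) ≤ g y.1 * ((Q.length : ℤ) + 1) :=
    mul_le_mul_of_nonneg_right h2 (by positivity)
  rw [add_mul, one_mul] at h3
  omega

theorem posQ_inj {g : ℕ → ℤ} (hg : Set.InjOn g {x | x ∈ E}) :
    Set.InjOn (posQ Q g) {x | x ∈ verts E Q} := by
  intro x hx y hy h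
  obtain ⟨hx1, hx2⟩ := (mem_verts x).1 hx
  obtain ⟨hy1, hy2⟩ := (mem_verts y).1 hy
  by_cases he : x.1 = y.1
  · unfold posQ at h
    rw [he] at h
    exact Prod.ext he (by omega)
  · exfalso
    rcases lt_or_gt_of_ne (fun h' => he (hg hx1 hy1 h')) with h' | h'
    · have := posQ_lt (Q := Q) hx2 h'
      omega
    · have := posQ_lt (Q := Q) hy2 h'
      omega

/-- Elements outside of a block are not between elements of the block. -/
theorem block_btw {g : ℕ → ℤ} (hg : Set.InjOn g {x | x ∈ E}) {a a' b : ℕ × ℕ}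
    (ha : a ∈ verts E Q) (ha' : a' ∈ verts E Q) (hb : b ∈ verts E Q) (h : a.1 = a'.1)
    (hne : b.1 ≠ a.1) : ¬ Cy.Btw (posQ Q g) a a' b := by
  rw [mem_verts] at ha ha' hb
  rcases lt_or_gt_of_ne (fun h' => hne (hg hb.1 ha.1 h')) with h' | h'
  · have h1 := posQ_lt (Q := Q) hb.2 h'
    have h2 := posQ_lt (Q := Q) (y := a') hb.2 (by rw [← h]; exact h')
    unfold Cy.Btw
    omega
  · have h1 := posQ_lt (Q := Q) ha.2 h'
    have h2 := posQ_lt (Q := Q) (x := a') (y := b) ha'.2 (by rw [← h]; exact h')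
    unfold Cy.Btw
    omega

/-- The edges without the blocks are nested or belong to the same constraint. -/
theorem nested {e e' : ℕ × ℕ} (he : e = (1, 0) ∨ ∃ j < Q.length, e = (2, j) ∨ e = (3, j))
    (he' : e' = (1, 0) ∨ ∃ j < Q.length, e' = (2, j) ∨ e' = (3, j)) :
    (∀ x, inc Q x e = true → inc Q x e' = true) ∨ (∀ x, inc Q x e' = true → inc Q x e = true) ∨
      ∃ j < Q.length, (e = (2, j) ∧ e' = (3, j)) ∨ (e = (3, j) ∧ e' = (2, j)) := by
  have low : ∀ {e : ℕ × ℕ} {j : ℕ}, j < Q.length → e = (2, j) ∨ e = (3, j) → ∀ x : ℕ × ℕ,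
      (x.2 < j + 1 → inc Q x e = true) ∧ (inc Q x e = true → x.2 ≤ j + 1) := by
    rintro e j hj (rfl | rfl) x
    · rw [inc_two hj]; omega
    · rw [inc_three hj]; omega
  rcases he with rfl | ⟨j, hj, he⟩
  · left
    intro x hx
    rw [inc_zero] at hx
    rcases he' with rfl | ⟨j', hj', he'⟩
    · rw [inc_zero]; exact hx
    · exact (low hj' he' x).1 (by omega)
  · rcases he' with rfl | ⟨j', hj', he'⟩
    · right; left
      intro x hx
      rw [inc_zero] at hx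
      exact (low hj he x).1 (by omega)
    · rcases lt_trichotomy j j' with h | h | h
      · left
        intro x hx
        exact (low hj' he' x).1 (by have := (low hj he x).2 hx; omega)
      · subst h
        rcases he with rfl | rfl <;> rcases he' with rfl | rfl
        · exact Or.inl (fun x hx => hx)
        · exact Or.inr (Or.inr ⟨j, hj, Or.inl ⟨rfl, rfl⟩⟩)
        · exact Or.inr (Or.inr ⟨j, hj, Or.inr ⟨rfl, rfl⟩⟩)
        · exact Or.inl (fun x hx => hx)
      · right; left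
        intro x hx
        exact (low hj he x).1 (by have := (low hj' he' x).2 hx; omega)

theorem btw_posQ {g : ℕ → ℤ} (hg : Set.InjOn g {x | x ∈ E}) {u v w i : ℕ} (hu : u ∈ E)
    (hv : v ∈ E) (hw : w ∈ E) (hi : i ≤ Q.length) (h1 : u ≠ w) (h2 : v ≠ w) :
    Cy.Btw (posQ Q g) (u, i) (v, i) (w, i) ↔ Cy.Btw g u v w := by
  have key : ∀ {p q : ℕ}, p ∈ E → q ∈ E → p ≠ q →
      (posQ Q g (p, i) < posQ Q g (q, i) ↔ g p < g q) := by
    intro p q hp hq hpq
    constructor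
    · intro h
      rcases lt_or_gt_of_ne (fun h' => hpq (hg hp hq h')) with h' | h'
      · exact h'
      · have := posQ_lt (Q := Q) (x := (q, i)) (y := (p, i)) hi h'
        omega
    · intro h
      exact posQ_lt (Q := Q) (x := (p, i)) (y := (q, i)) hi h
  unfold Cy.Btw
  rw [key hu hw h1, key hw hv h2.symm, key hv hw h2, key hw hu h1.symm]

theorem solv_to_free (hQ : QOk E Q) (h : Solv E Q) :
    GFree 4 (fun x => x ∈ verts E Q) (edgesQ E Q) := by
  obtain ⟨g, hg, hs⟩ := h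
  refine ⟨posQ Q g, posQ_inj hg, ?_⟩
  rintro A ⟨e, he, rfl⟩ B ⟨e', he', rfl⟩ halt
  obtain ⟨a, a', b, b', ha, ha', hb, hb', h1, h2, h3, h4, hsep⟩ := alt4_sep halt
  rw [mem_cols] at he he'
  rcases he with ⟨u, hu, rfl⟩ | he
  · rw [inc_blk] at h1 h2 h3 h4
    exact hsep (iff_of_false (block_btw hg ha ha' hb (h1.1.trans h2.1.symm)
      (by rw [h1.1]; exact h3.2)) (block_btw hg ha ha' hb' (h1.1.trans h2.1.symm)
      (by rw [h1.1]; exact h4.2)))
  · rcases he' with ⟨u, hu, rfl⟩ | he'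
    · rw [inc_blk] at h1 h2 h3 h4
      have hinj := posQ_inj (Q := Q) hg
      have hne : ∀ x y : ℕ × ℕ, x ∈ verts E Q → y ∈ verts E Q → x.1 ≠ u → y.1 = u →
          posQ Q g y ≠ posQ Q g x := by
        intro x y hx hy h1 h2 h
        rw [hinj hy hx h] at h2
        exact h1 h2
      have h5 : NonSep (posQ Q g) b b' a a' :=
        iff_of_false (block_btw hg hb hb' ha (h3.1.trans h4.1.symm)
          (by rw [h3.1]; exact h1.2)) (block_btw hg hb hb' ha' (h3.1.trans h4.1.symm)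
          (by rw [h3.1]; exact h2.2))
      exact hsep (h5.symm (hne _ _ ha hb h1.2 h3.1) (hne _ _ ha' hb h2.2 h3.1)
        (hne _ _ ha hb' h1.2 h4.1) (hne _ _ ha' hb' h2.2 h4.1))
    · rcases nested he he' with h | h | ⟨j, hj, h⟩
      · exact h1.2 (h a h1.1)
      · exact h3.2 (h b h3.1)
      · have hq := hs _ (List.getElem_mem hj)
        obtain ⟨m1, m2, m3, m4, n1, n2, n3, n4, n5, n6⟩ := hQ _ (List.getElem_mem hj)
        -- reduce to the two vertices
        have key : ∀ {a a' b b' : ℕ × ℕ}, a.2 = j + 1 ∧ (a.1 = Q[j].1 ∨ a.1 = Q[j].2.2.1) →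
            a'.2 = j + 1 ∧ (a'.1 = Q[j].1 ∨ a'.1 = Q[j].2.2.1) →
            b.2 = j + 1 ∧ (b.1 = Q[j].2.1 ∨ b.1 = Q[j].2.2.2) →
            b'.2 = j + 1 ∧ (b'.1 = Q[j].2.1 ∨ b'.1 = Q[j].2.2.2) →
            NonSep (posQ Q g) a a' b b' := by
          rintro ⟨a1, a2⟩ ⟨a1', a2'⟩ ⟨b1, b2⟩ ⟨b1', b2'⟩ ⟨ea, ka⟩ ⟨ea', ka'⟩ ⟨eb, kb⟩ ⟨eb', kb'⟩
          simp only at ea ka ea' ka' eb kb eb' kb'
          subst ea ea' eb eb'
          have base : NonSep (posQ Q g) (Q[j].1, j + 1) (Q[j].2.2.1, j + 1) (Q[j].2.1, j + 1)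
              (Q[j].2.2.2, j + 1) := by
            unfold NonSep at hq ⊢
            rw [btw_posQ hg m1 m3 m2 (by omega) n1 n4.symm,
              btw_posQ hg m1 m3 m4 (by omega) n3 n6]
            exact hq
          by_cases h1 : b1 = b1'
          · subst h1
            exact Iff.rfl
          · by_cases h2 : a1 = a1'
            · subst h2
              unfold NonSep Cy.Btw
              omega
            · have kb2 : (b1 = Q[j].2.1 ∧ b1' = Q[j].2.2.2) ∨ (b1 = Q[j].2.2.2 ∧ b1' = Q[j].2.1) := by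
                rcases kb with rfl | rfl <;> rcases kb' with rfl | rfl <;> simp_all
              have ka2 : (a1 = Q[j].1 ∧ a1' = Q[j].2.2.1) ∨ (a1 = Q[j].2.2.1 ∧ a1' = Q[j].1) := by
                rcases ka with rfl | rfl <;> rcases ka' with rfl | rfl <;> simp_all
              rcases ka2 with ⟨rfl, rfl⟩ | ⟨rfl, rfl⟩ <;> rcases kb2 with ⟨rfl, rfl⟩ | ⟨rfl, rfl⟩
              · exact base
              · exact nonSep_swap2 base
              · exact nonSep_swap1 base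
              · exact nonSep_swap1 (nonSep_swap2 base)
        rcases h with ⟨rfl, rfl⟩ | ⟨rfl, rfl⟩
        · rw [inc_two hj, inc_three hj] at h1 h2 h3 h4
          exact hsep (key (by omega) (by omega) (by omega) (by omega))
        · rw [inc_two hj, inc_three hj] at h1 h2 h3 h4
          have hinj := posQ_inj (Q := Q) hg
          have hne : ∀ x y : ℕ × ℕ, x ∈ verts E Q → y ∈ verts E Q →
              (x.2 = j + 1 ∧ (x.1 = Q[j].2.1 ∨ x.1 = Q[j].2.2.2)) →
              (y.2 = j + 1 ∧ (y.1 = Q[j].1 ∨ y.1 = Q[j].2.2.1)) → posQ Q g y ≠ posQ Q g x := by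
            intro x y hx hy h1 h2 h
            rw [hinj hy hx h] at h2
            rcases h1.2 with e | e <;> rcases h2.2 with e' | e' <;> rw [e] at e'
            · exact n1 e'.symm
            · exact n4 e'
            · exact n3 e'.symm
            · exact n6 e'.symm
          have k1 : a.2 = j + 1 ∧ (a.1 = Q[j].2.1 ∨ a.1 = Q[j].2.2.2) := by omega
          have k2 : a'.2 = j + 1 ∧ (a'.1 = Q[j].2.1 ∨ a'.1 = Q[j].2.2.2) := by omega
          have k3 : b.2 = j + 1 ∧ (b.1 = Q[j].1 ∨ b.1 = Q[j].2.2.1) := by omega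
          have k4 : b'.2 = j + 1 ∧ (b'.1 = Q[j].1 ∨ b'.1 = Q[j].2.2.1) := by omega
          exact hsep ((key k3 k4 k1 k2).symm (hne _ _ ha hb k1 k3) (hne _ _ ha' hb k2 k3)
            (hne _ _ ha hb' k1 k4) (hne _ _ ha' hb' k2 k4))

/-! ### An order gives a solution -/

theorem free_to_solv (hQ : QOk E Q) (h : GFree 4 (fun x => x ∈ verts E Q) (edgesQ E Q)) :
    Solv E Q := by
  obtain ⟨f, hf, hfree⟩ := h
  rcases Nat.eq_zero_or_pos Q.length with h0 | hpos
  · refine ⟨fun x => x, fun x _ y _ h => by simpa using h, fun q hq => ?_⟩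
    rw [List.length_eq_zero_iff.1 h0] at hq
    simp at hq
  have hE : ∀ e ∈ cols E Q, (fun x => inc Q x e = true) ∈ edgesQ E Q := fun e he => ⟨e, he, rfl⟩
  have hV : ∀ {u i : ℕ}, u ∈ E → i ≤ Q.length → (u, i) ∈ verts E Q :=
    fun hu hi => (mem_verts _).2 ⟨hu, hi⟩
  have hne : ∀ {u v i i' : ℕ}, u ∈ E → v ∈ E → i ≤ Q.length → i' ≤ Q.length → u ≠ v →
      f (u, i) ≠ f (v, i') := by
    intro u v i i' hu hv hi hi' huv h
    have := hf (show (u, i) ∈ {x | x ∈ verts E Q} from hV hu hi)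
      (show (v, i') ∈ {x | x ∈ verts E Q} from hV hv hi') h
    simp only [Prod.mk.injEq] at this
    exact huv this.1
  -- the separation statements for pairs of edges
  have sep : ∀ e e', e ∈ cols E Q → e' ∈ cols E Q → ∀ a a' b b' : ℕ × ℕ, a ∈ verts E Q →
      a' ∈ verts E Q → b ∈ verts E Q → b' ∈ verts E Q →
      (inc Q a e = true ∧ ¬ inc Q a e' = true) → (inc Q a' e = true ∧ ¬ inc Q a' e' = true) →
      (inc Q b e' = true ∧ ¬ inc Q b e = true) → (inc Q b' e' = true ∧ ¬ inc Q b' e = true) →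
      NonSep f a a' b b' := by
    intro e e' he he' a a' b b' ha ha' hb hb' h1 h2 h3 h4
    exact nonSep_of_free (hfree _ (hE e he) _ (hE e' he')) (hfree _ (hE e' he') _ (hE e he))
      ha ha' hb hb' h1 h2 h3 h4 hf
  -- two blocks
  have blocks : ∀ {u v i i' k k' : ℕ}, u ∈ E → v ∈ E → u ≠ v → i ≤ Q.length → i' ≤ Q.length →
      k ≤ Q.length → k' ≤ Q.length → NonSep f (u, i) (u, i') (v, k) (v, k') := by
    intro u v i i' k k' hu hv huv hi hi' hk hk'
    exact sep (0, u) (0, v) ((mem_cols _).2 (Or.inl ⟨u, hu, rfl⟩))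
      ((mem_cols _).2 (Or.inl ⟨v, hv, rfl⟩)) _ _ _ _ (hV hu hi) (hV hu hi') (hV hv hk) (hV hv hk')
      (by rw [inc_blk, inc_blk]; exact ⟨rfl, huv⟩) (by rw [inc_blk, inc_blk]; exact ⟨rfl, huv⟩)
      (by rw [inc_blk, inc_blk]; exact ⟨rfl, huv.symm⟩)
      (by rw [inc_blk, inc_blk]; exact ⟨rfl, huv.symm⟩)
  -- a block and the level zero
  have level : ∀ {u v w i i' : ℕ}, u ∈ E → v ∈ E → w ∈ E → v ≠ u → w ≠ u → 1 ≤ i → 1 ≤ i' →
      i ≤ Q.length → i' ≤ Q.length → NonSep f (u, i) (u, i') (v, 0) (w, 0) := by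
    intro u v w i i' hu hv hw hvu hwu h1 h1' hi hi'
    refine sep (0, u) (1, 0) ((mem_cols _).2 (Or.inl ⟨u, hu, rfl⟩))
      ((mem_cols _).2 (Or.inr (Or.inl rfl))) _ _ _ _ (hV hu hi) (hV hu hi') (hV hv (by omega))
      (hV hw (by omega)) ?_ ?_ ?_ ?_ <;> rw [inc_blk, inc_zero]
    · exact ⟨rfl, by simp only; omega⟩
    · exact ⟨rfl, by simp only; omega⟩
    · exact ⟨rfl, hvu⟩
    · exact ⟨rfl, hwu⟩
  -- all vertices of the other blocks are on the same side
  have side : ∀ {u v w i i' k k' : ℕ}, u ∈ E → v ∈ E → w ∈ E → v ≠ u → w ≠ u → 1 ≤ i → 1 ≤ i' →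
      i ≤ Q.length → i' ≤ Q.length → k ≤ Q.length → k' ≤ Q.length →
      NonSep f (u, i) (u, i') (v, k) (w, k') := by
    intro u v w i i' k k' hu hv hw hvu hwu h1 h1' hi hi' hk hk'
    exact ((blocks hu hv hvu.symm hi hi' hk (Nat.zero_le _)).trans
      (level hu hv hw hvu hwu h1 h1' hi hi')).trans
      (blocks hu hw hwu.symm hi hi' (Nat.zero_le _) hk')
  refine ⟨fun u => f (u, 1), ?_, ?_⟩
  · intro u hu v hv h
    by_contra huv
    exact hne hu hv (by omega) (by omega) huv h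
  · intro q hq
    obtain ⟨j, hj, rfl⟩ := List.getElem_of_mem hq
    obtain ⟨m1, m2, m3, m4, n1, n2, n3, n4, n5, n6⟩ := hQ _ (List.getElem_mem hj)
    generalize hq' : Q[j] = q at m1 m2 m3 m4 n1 n2 n3 n4 n5 n6
    obtain ⟨q1, q2, q3, q4⟩ := q
    simp only at m1 m2 m3 m4 n1 n2 n3 n4 n5 n6
    have hj1 : j + 1 ≤ Q.length := hj
    have base : NonSep f (q1, j + 1) (q3, j + 1) (q2, j + 1) (q4, j + 1) := by
      refine sep (2, j) (3, j) ((mem_cols _).2 (Or.inr (Or.inr ⟨j, hj, Or.inl rfl⟩)))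
        ((mem_cols _).2 (Or.inr (Or.inr ⟨j, hj, Or.inr rfl⟩))) _ _ _ _ (hV m1 hj1) (hV m3 hj1)
        (hV m2 hj1) (hV m4 hj1) ?_ ?_ ?_ ?_ <;> rw [inc_two hj, inc_three hj, hq'] <;>
        simp only
      · exact ⟨by simp, by omega⟩
      · exact ⟨by simp, by omega⟩
      · exact ⟨by simp, by omega⟩
      · exact ⟨by simp, by omega⟩
    have one : 1 ≤ Q.length := hpos
    have j1 : 1 ≤ j + 1 := by omega
    -- move the vertices to the level one, one after the other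
    have s1 : NonSep f (q1, 1) (q3, j + 1) (q2, j + 1) (q4, j + 1) :=
      nonSep_repl (hne m1 m2 hj1 hj1 n1) (hne m1 m4 hj1 hj1 n3) (hne m1 m2 one hj1 n1)
        (hne m1 m4 one hj1 n3) (hne m3 m2 hj1 hj1 n4.symm) (hne m3 m4 hj1 hj1 n6)
        (side m1 m2 m4 n1.symm n3.symm j1 le_rfl hj1 one hj1 hj1) base
    have s2 : NonSep f (q3, 1) (q1, 1) (q2, j + 1) (q4, j + 1) :=
      nonSep_repl (hne m3 m2 hj1 hj1 n4.symm) (hne m3 m4 hj1 hj1 n6) (hne m3 m2 one hj1 n4.symm)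
        (hne m3 m4 one hj1 n6) (hne m1 m2 one hj1 n1) (hne m1 m4 one hj1 n3)
        (side m3 m2 m4 n4 n6.symm j1 le_rfl hj1 one hj1 hj1) (nonSep_swap1 s1)
    have s3 : NonSep f (q2, j + 1) (q4, j + 1) (q1, 1) (q3, 1) :=
      (nonSep_swap1 s2).symm (hne m1 m2 one hj1 n1) (hne m1 m4 one hj1 n3)
        (hne m3 m2 one hj1 n4.symm) (hne m3 m4 one hj1 n6)
    have s4 : NonSep f (q2, 1) (q4, j + 1) (q1, 1) (q3, 1) :=
      nonSep_repl (hne m2 m1 hj1 one n1.symm) (hne m2 m3 hj1 one n4) (hne m2 m1 one one n1.symm)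
        (hne m2 m3 one one n4) (hne m4 m1 hj1 one n3.symm) (hne m4 m3 hj1 one n6.symm)
        (side m2 m1 m3 n1 n4.symm j1 le_rfl hj1 one one one) s3
    have s5 : NonSep f (q4, 1) (q2, 1) (q1, 1) (q3, 1) :=
      nonSep_repl (hne m4 m1 hj1 one n3.symm) (hne m4 m3 hj1 one n6.symm)
        (hne m4 m1 one one n3.symm) (hne m4 m3 one one n6.symm) (hne m2 m1 one one n1.symm)
        (hne m2 m3 one one n4)
        (side m4 m1 m3 n3 n6 j1 le_rfl hj1 one one one) (nonSep_swap1 s4)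
    exact (nonSep_swap1 s5).symm (hne m2 m1 one one n1.symm) (hne m2 m3 one one n4)
      (hne m4 m1 one one n3.symm) (hne m4 m3 one one n6.symm)

end Q200.HGA
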