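import Pool.Agent.Q200.HGA.Pads5
import Pool.Agent.Q200.HGA.Quad
import Pool.Agent.H495R3.CyPoly

/-!
# Hypergraphs given by incidence matrices
-/

set_option autoImplicit false

namespace Q200.HGA

/-! ### The statement -/

/-- The sets `A` and `B` form an `(AB)^{t/2}`-sequence for the strict order `lt`: there are
`x_0 < x_1 < ... < x_{t-1}` with `x_i ∈ A \ B` for even `i` and `x_i ∈ B \ A` for odd `i`. -/
def AltSeq {V : Type} (lt : V → V → Prop) (t : ℕ) (A B : Set V) : Prop :=
  ∃ x : Fin t → V, (∀ i j, i < j → lt (x i) (x j)) ∧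
    ∀ i : Fin t, (i.1 % 2 = 0 → x i ∈ A \ B) ∧ (i.1 % 2 = 1 → x i ∈ B \ A)

/-- The hypergraph with vertex set `V` (all elements of the type) and set of hyperedges `E` is
`(AB)^{t/2}`-free: for some linear order of the vertices no two hyperedges form an
`(AB)^{t/2}`-sequence. -/
def AltFree {V : Type} (t : ℕ) (E : Set (Set V)) : Prop :=
  ∃ o : LinearOrder V, ∀ A ∈ E, ∀ B ∈ E, ¬ AltSeq o.lt t A B

/-- The entry of the matrix in the row of the vertex `v` and the column of the hyperedge `j`
(missing entries are read as `0`). -/
def bitAt (M : List (List Bool)) (v j : ℕ) : Bool := (M.getD v []).getD j false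

/-- The number of columns: the greatest length of a row. -/
def ncols (M : List (List Bool)) : ℕ := (M.map List.length).foldr max 0

/-- The hyperedge of the column `j`. -/
def hedge (M : List (List Bool)) (j : ℕ) : Set (Fin M.length) := {v | bitAt M v.1 j = true}

/-- The hyperedges of the hypergraph with incidence matrix `M`. -/
def hedges (M : List (List Bool)) : Set (Set (Fin M.length)) := {A | ∃ j < ncols M, A = hedge M j}

/-- The recognition problem: is the hypergraph with incidence matrix `M` (one row for each vertex,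
one column for each hyperedge) `(AB)^{t/2}`-free? -/
def RecAltFree (t : ℕ) (M : List (List Bool)) : Prop := AltFree t (hedges M)

/-! ### Comparison with the internal notion -/

/-- The predicate of the column `j`. -/
def colP (M : List (List Bool)) (j : ℕ) : ℕ → Prop := fun v => bitAt M v j = true

/-- The first `W` columns. -/
def colsP (M : List (List Bool)) (W : ℕ) : Set (ℕ → Prop) := {A | ∃ j < W, A = colP M j}

theorem length_le_ncols {M : List (List Bool)} {r : List Bool} (h : r ∈ M) :
    r.length ≤ ncols M := by
  unfold ncols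
  induction M with
  | nil => simp at h
  | cons s M ih =>
    rw [List.map_cons, List.foldr_cons]
    rcases List.mem_cons.1 h with rfl | h
    · exact le_max_left _ _
    · exact (ih h).trans (le_max_right _ _)

theorem bitAt_eq_false {M : List (List Bool)} {v j : ℕ} (h : ncols M ≤ j) :
    bitAt M v j = false := by
  unfold bitAt
  by_cases hv : v < M.length
  · rw [List.getD_eq_getElem _ _ hv, List.getD_eq_default _ _
      ((length_le_ncols (List.getElem_mem hv)).trans h)]
  · rw [List.getD_eq_default _ _ (by omega : M.length ≤ v)]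
    rfl

theorem gfree_cols {t : ℕ} (ht : 2 ≤ t) {M : List (List Bool)} {S : ℕ → Prop} {W W' : ℕ}
    (hW : ncols M ≤ W) (h : GFree t S (colsP M W)) : GFree t S (colsP M W') := by
  obtain ⟨f, hf, hfree⟩ := h
  refine ⟨f, hf, ?_⟩
  rintro A ⟨j, hj, rfl⟩ B ⟨j', hj', rfl⟩
  by_cases h1 : j < W
  · by_cases h2 : j' < W
    · exact hfree _ ⟨j, h1, rfl⟩ _ ⟨j', h2, rfl⟩
    · refine not_alt_of_empty ht (Or.inr fun x _ hx => ?_)
      have := bitAt_eq_false (M := M) (v := x) (j := j') (by omega)
      unfold colP at hx
      rw [this] at hx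
      simp at hx
  · refine not_alt_of_empty ht (Or.inl fun x _ hx => ?_)
    have := bitAt_eq_false (M := M) (v := x) (j := j) (by omega)
    unfold colP at hx
    rw [this] at hx
    simp at hx

theorem altL_iff {α : Type} {A B : α → Prop} (b : Bool) (l : List α) :
    AltL A B b l ↔ ∀ (i : ℕ) (h : i < l.length), lab A B (flipN i b) l[i] := by
  induction l generalizing b with
  | nil => simp [AltL]
  | cons x l ih =>
    simp only [AltL]
    rw [ih]
    constructor
    · rintro ⟨h1, h2⟩ i hi
      cases i with
      | zero => exact h1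
      | succ i => exact h2 i (by simpa using hi)
    · intro h
      refine ⟨h 0 (by simp), fun i hi => ?_⟩
      exact h (i + 1) (by simpa using hi)

theorem flipN_true (i : ℕ) : flipN i true = decide (i % 2 = 0) := by
  have key : ∀ i b, flipN i b = if i % 2 = 0 then b else !b := by
    intro i
    induction i with
    | zero => intro b; simp [flipN]
    | succ i ih =>
      intro b
      rw [flipN, ih]
      rcases Nat.mod_two_eq_zero_or_one i with h | h
      · have h' : (i + 1) % 2 = 1 := by omega
        simp [h, h']
      · have h' : (i + 1) % 2 = 0 := by omega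
        simp [h, h']
  rw [key]
  by_cases h : i % 2 = 0 <;> simp [h]

theorem lab_flipN {α : Type} {A B : α → Prop} {i : ℕ} {x : α} :
    lab A B (flipN i true) x ↔ (i % 2 = 0 → A x ∧ ¬ B x) ∧ (i % 2 = 1 → B x ∧ ¬ A x) := by
  rw [flipN_true]
  rcases Nat.mod_two_eq_zero_or_one i with h | h <;> simp [lab, h]

theorem gfree_iff_rec (t : ℕ) (M : List (List Bool)) :
    RecAltFree t M ↔ GFree t (fun v => v < M.length) (colsP M (ncols M)) := by
  constructor
  · rintro ⟨o, ho⟩
    let f : ℕ → ℤ := fun v => if h : v < M.length then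
      ((@Finset.filter _ (fun w => o.lt w ⟨v, h⟩) (Classical.decPred _) Finset.univ).card : ℤ)
      else 0
    have hmono : ∀ u v : Fin M.length, o.lt u v ↔ f u < f v := by
      classical
      have h1 : ∀ u v : Fin M.length, o.lt u v → f u < f v := by
        intro u v huv
        simp only [f, u.2, v.2, dite_true, Nat.cast_lt]
        apply Finset.card_lt_card
        refine ⟨fun w hw => ?_, fun hsub => ?_⟩
        · simp only [Finset.mem_filter, Finset.mem_univ, true_and] at hw ⊢
          exact @lt_trans _ o.toPreorder _ _ _ hw huv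
        · have : u ∈ Finset.filter (fun w => o.lt w ⟨v.1, v.2⟩) Finset.univ := by
            simp only [Finset.mem_filter, Finset.mem_univ, true_and]
            exact huv
          have := hsub (by convert this)
          simp only [Finset.mem_filter, Finset.mem_univ, true_and] at this
          exact @lt_irrefl _ o.toPreorder _ this
      intro u v
      refine ⟨h1 u v, fun h => ?_⟩
      rcases @lt_trichotomy _ o u v with h' | h' | h'
      · exact h'
      · subst h'; exact absurd h (lt_irrefl _)
      · have := h1 _ _ h'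
        omega
    refine ⟨f, ?_, ?_⟩
    · intro u hu v hv huv
      have e1 := hmono ⟨u, hu⟩ ⟨v, hv⟩
      have e2 := hmono ⟨v, hv⟩ ⟨u, hu⟩
      rcases @lt_trichotomy _ o ⟨u, hu⟩ ⟨v, hv⟩ with h' | h' | h'
      · have := e1.1 h'
        simp only at this
        omega
      · exact congrArg Fin.val h'
      · have := e2.1 h'
        simp only at this
        omega
    · rintro A ⟨j, hj, rfl⟩ B ⟨j', hj', rfl⟩ ⟨l, hl, hS, hs, ha⟩
      refine ho _ ⟨j, hj, rfl⟩ _ ⟨j', hj', rfl⟩ ⟨fun i => ⟨l[i.1]'(by rw [hl]; exact i.2),
        hS _ (List.getElem_mem _)⟩, ?_, ?_⟩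
      · intro i i' hii
        rw [hmono]
        exact List.pairwise_iff_getElem.1 hs _ _ _ _ hii
      · intro i
        exact lab_flipN.1 ((altL_iff true l).1 ha i.1 (by rw [hl]; exact i.2))
  · rintro ⟨f, hf, hfree⟩
    have hinj : Function.Injective (fun v : Fin M.length => f v.1) := by
      intro u v huv
      exact Fin.ext (hf u.2 v.2 huv)
    refine ⟨LinearOrder.lift' (fun v : Fin M.length => f v.1) hinj, ?_⟩
    rintro A ⟨j, hj, rfl⟩ B ⟨j', hj', rfl⟩ ⟨x, hx, hab⟩
    refine hfree _ ⟨j, hj, rfl⟩ _ ⟨j', hj', rfl⟩ ⟨List.ofFn (fun i => (x i).1), by simp, ?_, ?_, ?_⟩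
    · intro v hv
      obtain ⟨i, rfl⟩ := List.mem_ofFn.1 hv
      exact (x i).2
    · rw [List.pairwise_ofFn]
      intro i i' hii
      exact hx i i' hii
    · rw [altL_iff]
      intro i hi
      rw [List.length_ofFn] at hi
      rw [List.getElem_ofFn]
      exact lab_flipN.2 (hab ⟨i, hi⟩)

/-- The matrix of an incidence relation. -/
def mk {α β : Type} (L : List α) (C : List β) (r : α → β → Bool) : List (List Bool) :=
  L.map (fun v => C.map (fun c => r v c))

theorem mk_length {α β : Type} (L : List α) (C : List β) (r : α → β → Bool) :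
    (mk L C r).length = L.length := by simp [mk]

theorem bitAt_mk {α β : Type} {L : List α} {C : List β} {r : α → β → Bool} {v j : ℕ}
    (hv : v < L.length) (hj : j < C.length) : bitAt (mk L C r) v j = r L[v] C[j] := by
  unfold bitAt mk
  have h1 : (L.map fun v => C.map fun c => r v c).getD v [] = C.map fun c => r L[v] c := by
    rw [List.getD_eq_getElem _ _ (by simpa using hv), List.getElem_map]
  rw [h1, List.getD_eq_getElem _ _ (by simpa using hj), List.getElem_map]

theorem bitAt_mk' {α β : Type} {L : List α} {C : List β} {r : α → β → Bool} {v j : ℕ}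
    (hv : v < L.length) (hj : C.length ≤ j) : bitAt (mk L C r) v j = false := by
  unfold bitAt mk
  have h1 : (L.map fun v => C.map fun c => r v c).getD v [] = C.map fun c => r L[v] c := by
    rw [List.getD_eq_getElem _ _ (by simpa using hv), List.getElem_map]
  rw [h1, List.getD_eq_default _ _ (by simpa using hj)]

theorem gfree_mk {α β : Type} [DecidableEq α] {t : ℕ} (ht : 2 ≤ t) {L : List α}
    (hL : L.Nodup) (C : List β) (r : α → β → Bool) :
    RecAltFree t (mk L C r) ↔
      GFree t (fun x => x ∈ L) {A | ∃ c ∈ C, A = fun x => r x c = true} := by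
  rw [gfree_iff_rec]
  constructor
  · intro h
    obtain ⟨f, hf, hfree⟩ := gfree_cols ht le_rfl (W' := C.length) h
    refine ⟨fun x => f (L.idxOf x), ?_, ?_⟩
    · intro x hx y hy hxy
      have hx' : L.idxOf x < L.length := List.idxOf_lt_length_of_mem hx
      have hy' : L.idxOf y < L.length := List.idxOf_lt_length_of_mem hy
      have := hf (show L.idxOf x ∈ {v | v < (mk L C r).length} by simpa [mk_length] using hx')
        (show L.idxOf y ∈ {v | v < (mk L C r).length} by simpa [mk_length] using hy') hxy
      exact (List.idxOf_inj hx).1 this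
    · rintro A ⟨c, hc, rfl⟩ B ⟨c', hc', rfl⟩ halt
      obtain ⟨j, hj, rfl⟩ := List.getElem_of_mem hc
      obtain ⟨j', hj', rfl⟩ := List.getElem_of_mem hc'
      refine hfree _ ⟨j, hj, rfl⟩ _ ⟨j', hj', rfl⟩ (Alt.map (fun x => L.idxOf x) ?_ ?_ ?_ ?_ halt)
      · intro x hx
        rw [mk_length]
        exact List.idxOf_lt_length_of_mem hx
      · exact fun _ _ => rfl
      · intro x hx
        have hx' : L.idxOf x < L.length := List.idxOf_lt_length_of_mem hx
        unfold colP
        rw [bitAt_mk hx' hj, List.getElem_idxOf hx']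
      · intro x hx
        have hx' : L.idxOf x < L.length := List.idxOf_lt_length_of_mem hx
        unfold colP
        rw [bitAt_mk hx' hj', List.getElem_idxOf hx']
  · rintro ⟨g, hg, hfree⟩
    refine ⟨fun v => if h : v < L.length then g L[v] else 0, ?_, ?_⟩
    · intro u hu v hv huv
      simp only [mk_length, Set.mem_ofPred_eq] at hu hv
      simp only [hu, hv, dite_true] at huv
      exact (hL.getElem_inj_iff).1 (hg (List.getElem_mem hu) (List.getElem_mem hv) huv)
    · rintro A ⟨j, -, rfl⟩ B ⟨j', -, rfl⟩
      by_cases hj : j < C.length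
      · by_cases hj' : j' < C.length
        · intro halt
          have hne : 0 < L.length := by
            obtain ⟨l, hl, hS, -⟩ := halt
            match l, hl, hS with
            | [], hl, _ => rw [List.length_nil] at hl; omega
            | x :: l, _, hS =>
              have := hS x (by simp)
              rw [mk_length] at this
              omega
          refine hfree _ ⟨C[j], List.getElem_mem hj, rfl⟩ _ ⟨C[j'], List.getElem_mem hj', rfl⟩
            (Alt.map (fun v => L.getD v L[0]) ?_ ?_ ?_ ?_ halt)
          · intro v hv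
            rw [mk_length] at hv
            rw [List.getD_eq_getElem _ _ hv]
            exact List.getElem_mem hv
          · intro v hv
            rw [mk_length] at hv
            rw [List.getD_eq_getElem _ _ hv]
            simp [hv]
          · intro v hv
            rw [mk_length] at hv
            unfold colP
            rw [bitAt_mk hv hj, List.getD_eq_getElem _ _ hv]
          · intro v hv
            rw [mk_length] at hv
            unfold colP
            rw [bitAt_mk hv hj', List.getD_eq_getElem _ _ hv]
        · refine not_alt_of_empty ht (Or.inr fun x hx hx' => ?_)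
          rw [mk_length] at hx
          unfold colP at hx'
          rw [bitAt_mk' hx (by omega)] at hx'
          simp at hx'
      · refine not_alt_of_empty ht (Or.inl fun x hx hx' => ?_)
        rw [mk_length] at hx
        unfold colP at hx'
        rw [bitAt_mk' hx (by omega)] at hx'
        simp at hx'

/-! ### Pads on the level of matrices -/

/-- The vertices with pads. -/
def padL (n k : ℕ) : List (ℕ ⊕ ℕ) := (List.range n).map Sum.inl ++ (List.range k).map Sum.inr

/-- The columns with pads. -/
def padC (W k : ℕ) : List ((ℕ × ℕ) ⊕ Bool) :=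
  (List.range W).flatMap (fun j => (List.range k).map (fun i => Sum.inl (j, i))) ++
    [Sum.inr true, Sum.inr false]

/-- The incidence relation with pads. -/
def padInc (M : List (List Bool)) (x : ℕ ⊕ ℕ) (c : (ℕ × ℕ) ⊕ Bool) : Bool :=
  Sum.elim (fun v => Sum.elim (fun q => bitAt M v q.1) (fun b => b) c)
    (fun i => Sum.elim (fun q => decide (i = q.2)) (fun b => !b) c) x

/-- The reduction. -/
def padRed (k : ℕ) (M : List (List Bool)) : List (List Bool) :=
  mk (padL M.length k) (padC M.flatten.length k) (padInc M)

theorem padL_nodup (n k : ℕ) : (padL n k).Nodup := by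
  unfold padL
  rw [List.nodup_append]
  refine ⟨List.nodup_range.map Sum.inl_injective, List.nodup_range.map Sum.inr_injective, ?_⟩
  intro x hx y hy hxy
  subst hxy
  rw [List.mem_map] at hx hy
  obtain ⟨a, _, rfl⟩ := hx
  obtain ⟨b, _, h⟩ := hy
  simp at h

theorem mem_padL {n k : ℕ} : (fun x => x ∈ padL n k) = padS (fun v => v < n) k := by
  funext x
  cases x <;> simp [padL, padS]

theorem padC_edges (M : List (List Bool)) (W k : ℕ) :
    {A | ∃ c ∈ padC W k, A = fun x => padInc M x c = true} = padEdges (colsP M W) k := by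
  ext A
  simp only [padC, List.mem_append, List.mem_flatMap, List.mem_range, List.mem_map, List.mem_cons,
    List.not_mem_nil, or_false, Set.mem_ofPred_eq, padEdges, colsP]
  constructor
  · rintro ⟨c, ⟨j, hj, i, hi, rfl⟩ | rfl | rfl, rfl⟩
    · left
      refine ⟨colP M j, ⟨j, hj, rfl⟩, i, hi, ?_⟩
      funext x
      cases x <;> simp [padInc, padA, colP]
    · right
      refine ⟨true, ?_⟩
      funext x
      cases x <;> simp [padInc, padV]
    · right
      refine ⟨false, ?_⟩
      funext x
      cases x <;> simp [padInc, padV]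
  · rintro (⟨B, ⟨j, hj, rfl⟩, i, hi, rfl⟩ | ⟨b, rfl⟩)
    · refine ⟨Sum.inl (j, i), Or.inl ⟨j, hj, i, hi, rfl⟩, ?_⟩
      funext x
      cases x <;> simp [padInc, padA, colP]
    · cases b
      · refine ⟨Sum.inr false, Or.inr (Or.inr rfl), ?_⟩
        funext x
        cases x <;> simp [padInc, padV]
      · refine ⟨Sum.inr true, Or.inr (Or.inl rfl), ?_⟩
        funext x
        cases x <;> simp [padInc, padV]

theorem ncols_le (M : List (List Bool)) : ncols M ≤ M.flatten.length := by
  unfold ncols
  induction M with
  | nil => simp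
  | cons r M ih =>
    rw [List.map_cons, List.foldr_cons, List.flatten_cons, List.length_append]
    omega

theorem finite_lt (n : ℕ) : {v : ℕ | v < n}.Finite := Set.finite_lt_nat n

theorem pad_two {t : ℕ} (ht : 2 ≤ t) (M : List (List Bool)) :
    RecAltFree t M ↔ RecAltFree (t + 2) (padRed (t + 2) M) := by
  unfold padRed
  rw [gfree_mk (by omega) (padL_nodup _ _), mem_padL, padC_edges, gfree_iff_rec]
  constructor
  · intro h
    exact pads_forth (by omega) (finite_lt _) (gfree_cols ht le_rfl h)
  · intro h
    exact gfree_cols ht (ncols_le M) (pads_back le_rfl h)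

theorem pad_one (M : List (List Bool)) : RecAltFree 4 M ↔ RecAltFree 5 (padRed 2 M) := by
  unfold padRed
  rw [gfree_mk (by omega) (padL_nodup _ _), mem_padL, padC_edges, gfree_iff_rec]
  constructor
  · intro h
    exact pads_forth5 (finite_lt _) (gfree_cols (by omega) le_rfl h)
  · intro h
    exact gfree_cols (by omega) (ncols_le M) (pads_back5 h)

/-! ### The basic reduction -/

open Pool.Agent.NPC Pool.Agent.H495R3.Cy

/-- The hypergraph of a formula. -/
def baseRed (φ : List Cl) : List (List Bool) :=
  mk (verts (els φ) (quads φ)) (cols (els φ) (quads φ)) (inc (quads φ))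

theorem verts_nodup {E : List ℕ} (hE : E.Nodup) (Q : List Quad) : (verts E Q).Nodup := by
  unfold verts
  refine Pool.Agent.H622R2.nodup_flatMap_of (fun x : ℕ × ℕ => x.1) hE (fun u _ => ?_) ?_
  · exact List.nodup_range.map (fun a b h => by simpa using h)
  · intro u _ x hx
    obtain ⟨i, _, rfl⟩ := List.mem_map.1 hx
    rfl

theorem baseRed_correct {φ : List Cl} (hd : Distinct3 φ) (hb : Bounded3 φ) :
    SAT3 φ ↔ RecAltFree 4 (baseRed φ) := by
  have hq := quads_ok hd hb
  unfold baseRed
  rw [gfree_mk (by omega) (verts_nodup (by unfold els; exact List.nodup_range) _)]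
  constructor
  · intro h
    exact solv_to_free hq (sat_to_solv hd hb h)
  · intro h
    exact solv_to_sat hd hb (free_to_solv hq h)

/-! ### Polynomial time -/

section Poly

open Pool.Agent

variable {α : Type} [TEnc α]

theorem mk_poly {β γ : Type} [TEnc β] [TEnc γ] {L : α → List β} {C : α → List γ}
    {r : α → β → γ → Bool} (hL : NPC.Poly L) (hC : NPC.Poly C)
    (hr : NPC.Poly (fun p : (α × β) × γ => r p.1.1 p.1.2 p.2)) :
    NPC.Poly (fun a => mk (L a) (C a) (r a)) :=
  NPC.Poly.map (F := fun a u => (C a).map fun v => r a u v) hL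
    (NPC.Poly.map (F := fun (p : α × β) v => r p.1 p.2 v) (hC.comp (NPC.Poly.fst NPC.Poly.id)) hr)

theorem bitAt_poly {M : α → List (List Bool)} {v j : α → ℕ} (hM : NPC.Poly M) (hv : NPC.Poly v)
    (hj : NPC.Poly j) : NPC.Poly (fun a => bitAt (M a) (v a) (j a)) := by
  unfold bitAt
  fun_prop

attribute [fun_prop] bitAt_poly

theorem padInc_poly : NPC.Poly (fun p : (List (List Bool) × (ℕ ⊕ ℕ)) × ((ℕ × ℕ) ⊕ Bool) =>
    padInc p.1.1 p.1.2 p.2) := by
  unfold padInc
  fun_prop

theorem padRed_poly (k : ℕ) : NPC.Poly (padRed k) := by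
  refine mk_poly (L := fun M => padL M.length k) (C := fun M : List (List Bool) =>
    padC M.flatten.length k) (r := padInc) ?_ ?_ padInc_poly
  · unfold padL
    exact NPC.Poly.append (NPC.Poly.map (F := fun _ x => Sum.inl x) (UPoly.length NPC.Poly.id).range
      (by fun_prop)) (NPC.Poly.const _)
  · unfold padC
    refine NPC.Poly.append (NPC.Poly.flatMap (F := fun _ j => (List.range k).map (fun i =>
      (Sum.inl (j, i) : (ℕ × ℕ) ⊕ Bool))) (UPoly.length (NPC.Poly.flatten NPC.Poly.id)).range ?_)
      (NPC.Poly.const _)
    exact NPC.Poly.map (F := fun (p : List (List Bool) × ℕ) i => (Sum.inl (p.2, i) : (ℕ × ℕ) ⊕ Bool))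
      (NPC.Poly.const _) (by fun_prop)

theorem inc_poly : NPC.Poly (fun p : (List Cl × (ℕ × ℕ)) × (ℕ × ℕ) =>
    inc (quads p.1.1) p.1.2 p.2) := by
  unfold inc
  fun_prop

theorem baseRed_poly : NPC.Poly baseRed := by
  have hu : UPoly (fun φ : List Cl => (quads φ).length) := UPoly.length (quads_poly NPC.Poly.id)
  refine mk_poly (L := fun φ => verts (els φ) (quads φ)) (C := fun φ => cols (els φ) (quads φ))
    (r := fun φ => inc (quads φ)) ?_ ?_ inc_poly
  · unfold verts
    refine NPC.Poly.flatMap (F := fun (φ : List Cl) u =>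
      (List.range ((quads φ).length + 1)).map (fun i => (u, i))) (by fun_prop) ?_
    exact NPC.Poly.map (F := fun (p : List Cl × ℕ) i => (p.2, i))
      ((hu.add (UPoly.const 1)).range.comp (NPC.Poly.fst NPC.Poly.id)) (by fun_prop)
  · unfold cols
    refine NPC.Poly.append (NPC.Poly.map (F := fun (_ : List Cl) u => ((0 : ℕ), u)) (by fun_prop)
      (by fun_prop)) ?_
    refine NPC.Poly.cons (NPC.Poly.const _) ?_
    exact NPC.Poly.append (NPC.Poly.map (F := fun (_ : List Cl) u => ((2 : ℕ), u)) hu.range
      (by fun_prop)) (NPC.Poly.map (F := fun (_ : List Cl) u => ((3 : ℕ), u)) hu.range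
      (by fun_prop))

end Poly

/-- Recognising `(AB)^{t/2}`-free hypergraphs is hard for all `t ≥ 4`. -/
theorem hardI_four : HardI (RecAltFree 4) :=
  (hardPr_SAT3b.trans (Pr' := fun _ => True) baseRed_poly (fun _ _ => trivial)
    (fun _ h => baseRed_correct h.1 h.2.1)).toHardI

theorem hardI_all {t : ℕ} (ht : 4 ≤ t) : HardI (RecAltFree t) := by
  induction t using Nat.strong_induction_on with
  | _ t ih =>
    by_cases h4 : t = 4
    · subst h4; exact hardI_four
    · by_cases h5 : t = 5
      · subst h5; exact hardI_four.trans (padRed_poly 2) pad_one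
      · obtain ⟨s, rfl⟩ : ∃ s, t = s + 2 := ⟨t - 2, by omega⟩
        exact (ih s (by omega) (by omega)).trans (padRed_poly (s + 2)) (pad_two (by omega))

end Q200.HGA
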