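import Pool.Agent.Q200.HGA.Mat
import Pool.Agent.NPC.Dec

/-!
# The recognition problem is in NP
-/

set_option autoImplicit false

namespace Q200.HGA

open Pool.Agent.NPC

/-- test for the label of a vertex -/
def labT (M : List (List Bool)) (j j' : ℕ) (b : Bool) (v : ℕ) : Bool :=
  decide (bitAt M v j = b) && decide (bitAt M v j' = !b)

theorem labT_iff {M : List (List Bool)} {j j' : ℕ} {b : Bool} {v : ℕ} :
    labT M j j' b v = true ↔ lab (colP M j) (colP M j') b v := by
  unfold labT lab colP
  cases b <;> cases bitAt M v j <;> cases bitAt M v j' <;> simp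

/-- no alternating sequence of the given length on which the rank is at least `r` -/
def noAlt : ℕ → Bool → List (List Bool) × List ℕ → ℕ → ℕ → ℕ → Bool
  | 0, _, _, _, _, _ => false
  | s + 1, b, x, j, j', r => (List.range x.1.length).all fun v =>
      !(labT x.1 j j' b v && decide (r ≤ x.2.getD v 0)) || noAlt s (!b) x j j' (x.2.getD v 0 + 1)

theorem noAlt_iff (s : ℕ) (b : Bool) (x : List (List Bool) × List ℕ) (j j' r : ℕ) :
    noAlt s b x j j' r = true ↔ ¬ ∃ l : List ℕ, l.length = s ∧ (∀ v ∈ l, v < x.1.length) ∧
      (∀ v ∈ l, r ≤ x.2.getD v 0) ∧ l.Pairwise (fun u v => x.2.getD u 0 < x.2.getD v 0) ∧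
      AltL (colP x.1 j) (colP x.1 j') b l := by
  induction s generalizing b r with
  | zero =>
    simp only [noAlt, Bool.false_eq_true, false_iff, not_not]
    exact ⟨[], rfl, by simp, by simp, List.Pairwise.nil, trivial⟩
  | succ s ih =>
    simp only [noAlt, List.all_eq_true, List.mem_range, Bool.or_eq_true, Bool.not_eq_true',
      Bool.and_eq_false_iff, decide_eq_false_iff_not]
    constructor
    · rintro h ⟨l, hl, hn, hr, hp, ha⟩
      match l, hl, hn, hr, hp, ha with
      | v :: l, hl, hn, hr, hp, ha =>
        simp only [AltL] at ha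
        rw [List.pairwise_cons] at hp
        rcases h v (hn v (by simp)) with (h1 | h1) | h1
        · rw [labT_iff.2 ha.1] at h1
          exact Bool.noConfusion h1
        · exact h1 (hr v (by simp))
        · refine (ih _ _).1 h1 ⟨l, by simpa using hl, fun u hu => hn u (by simp [hu]),
            fun u hu => ?_, hp.2, ha.2⟩
          have := hp.1 u hu
          omega
    · intro h v hv
      by_cases h1 : labT x.1 j j' b v = true
      · by_cases h2 : r ≤ x.2.getD v 0
        · right
          rw [ih]
          rintro ⟨l, hl, hn, hr, hp, ha⟩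
          refine h ⟨v :: l, by simpa using hl, ?_, ?_, ?_, ⟨labT_iff.1 h1, ha⟩⟩
          · intro u hu
            rcases List.mem_cons.1 hu with rfl | hu
            · exact hv
            · exact hn u hu
          · intro u hu
            rcases List.mem_cons.1 hu with rfl | hu
            · exact h2
            · have := hr u hu
              omega
          · rw [List.pairwise_cons]
            refine ⟨fun u hu => ?_, hp⟩
            have := hr u hu
            omega
        · exact Or.inl (Or.inr h2)
      · exact Or.inl (Or.inl (by simpa using h1))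

/-- the test of a certificate -/
def certT (t : ℕ) (x : List (List Bool) × List ℕ) : Bool :=
  ((List.range x.1.length).all fun u => (List.range x.1.length).all fun v =>
    decide (u = v) || !decide (x.2.getD u 0 = x.2.getD v 0)) &&
  (List.range x.1.flatten.length).all fun j => (List.range x.1.flatten.length).all fun j' =>
    noAlt t true x j j' 0

theorem certT_iff (t : ℕ) (x : List (List Bool) × List ℕ) :
    certT t x = true ↔ Set.InjOn (fun v => ((x.2.getD v 0 : ℕ) : ℤ)) {v | v < x.1.length} ∧
      ∀ A ∈ colsP x.1 x.1.flatten.length, ∀ B ∈ colsP x.1 x.1.flatten.length,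
        ¬ Alt t (fun v => ((x.2.getD v 0 : ℕ) : ℤ)) (fun v => v < x.1.length) A B := by
  simp only [certT, Bool.and_eq_true, List.all_eq_true, List.mem_range, Bool.or_eq_true,
    decide_eq_true_eq, Bool.not_eq_true', decide_eq_false_iff_not]
  refine and_congr ⟨fun h u hu v hv huv => ?_, fun h u hu v hv => ?_⟩ ⟨?_, ?_⟩
  · rcases h u hu v hv with h1 | h1
    · exact h1
    · simp only at huv
      exact absurd (by exact_mod_cast huv) h1
  · by_cases h1 : u = v
    · exact Or.inl h1
    · right
      intro h2
      exact h1 (h hu hv (by simp only; exact_mod_cast h2))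
  · rintro h A ⟨j, hj, rfl⟩ B ⟨j', hj', rfl⟩ ⟨l, hl, hn, hp, ha⟩
    exact (noAlt_iff _ _ _ _ _ _).1 (h j hj j' hj') ⟨l, hl, hn, fun _ _ => Nat.zero_le _,
      hp.imp (fun h => by simpa using h), ha⟩
  · intro h j hj j' hj'
    rw [noAlt_iff]
    rintro ⟨l, hl, hn, -, hp, ha⟩
    exact h _ ⟨j, hj, rfl⟩ _ ⟨j', hj', rfl⟩ ⟨l, hl, hn, hp.imp (fun h => by simpa using h), ha⟩

theorem cert_iff {t : ℕ} (ht : 2 ≤ t) (M : List (List Bool)) : RecAltFree t M ↔ ∃ w : List ℕ,
    sz w ≤ (Polynomial.X * (Polynomial.C 4 * Polynomial.X + Polynomial.C 2) +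
      Polynomial.C 1 : Polynomial ℕ).eval (sz M) ∧ certT t (M, w) = true := by
  classical
  have hn : M.length < sz M := length_lt_sz M
  simp only [Polynomial.eval_add, Polynomial.eval_mul, Polynomial.eval_C, Polynomial.eval_X]
  rw [gfree_iff_rec]
  constructor
  · intro h
    obtain ⟨f, hf, hfree⟩ := gfree_cols ht le_rfl (W' := M.flatten.length) h
    let rk : ℕ → ℕ := fun v => ((Finset.range M.length).filter fun w => f w < f v).card
    have hrk : ∀ u v, u < M.length → f u < f v → rk u < rk v := by
      intro u v hu huv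
      refine Finset.card_lt_card ?_
      rw [Finset.ssubset_iff_of_subset]
      · exact ⟨u, by simpa using ⟨hu, huv⟩, by simp⟩
      · intro z hz
        simp only [Finset.mem_filter, Finset.mem_range] at hz ⊢
        exact ⟨hz.1, by omega⟩
    have hlt : ∀ v, v < M.length → rk v < M.length := by
      intro v hv
      have h1 : rk v < (Finset.range M.length).card := by
        refine Finset.card_lt_card ?_
        rw [Finset.ssubset_iff_of_subset (Finset.filter_subset _ _)]
        exact ⟨v, by simpa using hv, by simp⟩
      simpa using h1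
    have hg : ∀ v, v < M.length → ((List.range M.length).map rk).getD v 0 = rk v := by
      intro v hv
      rw [List.getD_eq_getElem _ _ (by simpa using hv)]
      simp
    have hrk' : ∀ u v, u < M.length → v < M.length → rk u < rk v → f u < f v := by
      intro u v hu hv h1
      by_contra h2
      rcases lt_or_eq_of_le (not_lt.1 h2) with h3 | h3
      · have := hrk v u hv h3
        omega
      · have := hf hv hu h3
        rw [this] at h1
        exact lt_irrefl _ h1
    refine ⟨(List.range M.length).map rk, ?_, ?_⟩
    · have h1 : sz ((List.range M.length).map rk) ≤ M.length * (4 * M.length + 1 + 1) + 1 := by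
        refine (sz_le_length_mul _ (4 * M.length + 1) ?_).trans (by simp)
        intro a ha
        obtain ⟨v, hv, rfl⟩ := List.mem_map.1 ha
        have h2 := sz_nat_le (rk v)
        have h3 := Pool.Agent.NPC.Poly.size_le_self (rk v)
        have h4 := hlt v (List.mem_range.1 hv)
        omega
      nlinarith
    · rw [certT_iff]
      refine ⟨?_, ?_⟩
      · intro u hu v hv huv
        simp only at huv
        rw [hg u hu, hg v hv] at huv
        have huv' : rk u = rk v := by exact_mod_cast huv
        by_contra hne
        rcases lt_trichotomy (f u) (f v) with h1 | h1 | h1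
        · have := hrk u v hu h1
          omega
        · exact hne (hf hu hv h1)
        · have := hrk v u hv h1
          omega
      · rintro A hA B hB ⟨l, hl, hn, hp, ha⟩
        refine hfree A hA B hB ⟨l, hl, hn, hp.imp_of_mem ?_, ha⟩
        intro u v hu hv huv
        simp only at huv
        rw [hg u (hn u hu), hg v (hn v hv)] at huv
        exact hrk' u v (hn u hu) (hn v hv) (by exact_mod_cast huv)
  · rintro ⟨w, -, h⟩
    rw [certT_iff] at h
    exact gfree_cols ht (ncols_le M) ⟨_, h.1, h.2⟩

section Poly

open Pool.Agent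

variable {α : Type} [TEnc α]

theorem labT_poly {M : α → List (List Bool)} {j j' v : α → ℕ} (b : Bool) (hM : NPC.Poly M)
    (hj : NPC.Poly j) (hj' : NPC.Poly j') (hv : NPC.Poly v) :
    NPC.Poly (fun a => labT (M a) (j a) (j' a) b (v a)) := by
  unfold labT
  fun_prop

theorem noAlt_poly (s : ℕ) (b : Bool) :
    NPC.Poly (fun p : (List (List Bool) × List ℕ) × (ℕ × ℕ) × ℕ =>
      noAlt s b p.1 p.2.1.1 p.2.1.2 p.2.2) := by
  induction s generalizing b with
  | zero => exact NPC.Poly.const false
  | succ s ih =>
    simp only [noAlt]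
    refine NPC.Poly.all (p := fun (p : (List (List Bool) × List ℕ) × (ℕ × ℕ) × ℕ) v =>
      !(labT p.1.1 p.2.1.1 p.2.1.2 b v && decide (p.2.2 ≤ p.1.2.getD v 0)) ||
        noAlt s (!b) p.1 p.2.1.1 p.2.1.2 (p.1.2.getD v 0 + 1))
      (UPoly.length (NPC.Poly.fst (NPC.Poly.fst NPC.Poly.id))).range ?_
    refine NPC.Poly.or (NPC.Poly.not (NPC.Poly.and (labT_poly b ?_ ?_ ?_ ?_) ?_)) ?_
    · fun_prop
    · fun_prop
    · fun_prop
    · fun_prop
    · fun_prop
    · exact (ih (!b)).comp (f := fun p : ((List (List Bool) × List ℕ) × (ℕ × ℕ) × ℕ) × ℕ =>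
        (p.1.1, (p.1.2.1.1, p.1.2.1.2), p.1.1.2.getD p.2 0 + 1)) (by fun_prop)

theorem certT_poly (t : ℕ) : NPC.Poly (certT t) := by
  unfold certT
  refine NPC.Poly.and ?_ ?_
  · refine NPC.Poly.all (p := fun (x : List (List Bool) × List ℕ) u =>
      (List.range x.1.length).all fun v =>
        decide (u = v) || !decide (x.2.getD u 0 = x.2.getD v 0))
      (UPoly.length (NPC.Poly.fst NPC.Poly.id)).range ?_
    refine NPC.Poly.all (p := fun (p : (List (List Bool) × List ℕ) × ℕ) v =>
        decide (p.2 = v) || !decide (p.1.2.getD p.2 0 = p.1.2.getD v 0))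
      (UPoly.length (NPC.Poly.fst (NPC.Poly.fst NPC.Poly.id))).range ?_
    fun_prop
  · refine NPC.Poly.all (p := fun (x : List (List Bool) × List ℕ) j =>
      (List.range x.1.flatten.length).all fun j' => noAlt t true x j j' 0)
      (UPoly.length (NPC.Poly.flatten (NPC.Poly.fst NPC.Poly.id))).range ?_
    refine NPC.Poly.all (p := fun (p : (List (List Bool) × List ℕ) × ℕ) j' =>
        noAlt t true p.1 p.2 j' 0)
      (UPoly.length (NPC.Poly.flatten (NPC.Poly.fst (NPC.Poly.fst NPC.Poly.id)))).range ?_
    exact (noAlt_poly t true).comp (f := fun p : ((List (List Bool) × List ℕ) × ℕ) × ℕ =>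
      (p.1.1, (p.1.2, p.2), 0)) (by fun_prop)

end Poly

theorem inNPP {t : ℕ} (ht : 2 ≤ t) : InNPP (RecAltFree t) := inNPP_of (certT_poly t) _ (cert_iff ht)

end Q200.HGA
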