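import Pool.Agent.Q200.HGA.Alt

/-!
# Adding pads

New vertices (pads) are added to a hypergraph, every edge `A` is replaced by the edges `A ∪ {p}` for
the pads `p`, and the set of all old vertices and the set of all pads become edges.
-/

set_option autoImplicit false

namespace Q200.HGA

variable {α : Type}

/-- The new vertex set. -/
def padS (S : α → Prop) (k : ℕ) : α ⊕ ℕ → Prop := Sum.elim S (fun i => i < k)

/-- The edge `A ∪ {p_i}`. -/
def padA (A : α → Prop) (i : ℕ) : α ⊕ ℕ → Prop := Sum.elim A (fun j => j = i)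

/-- The old vertices (for `true`), the pads (for `false`). -/
def padV (b : Bool) : α ⊕ ℕ → Prop := Sum.elim (fun _ => b = true) (fun _ => b = false)

/-- The new edges. -/
def padEdges (E : Set (α → Prop)) (k : ℕ) : Set (α ⊕ ℕ → Prop) :=
  {B | (∃ A ∈ E, ∃ i < k, B = padA A i) ∨ ∃ b, B = padV b}

variable {S : α → Prop} {E : Set (α → Prop)} {k t : ℕ}

theorem lab_pad_ne {A B : α → Prop} {i j : ℕ} (h : i ≠ j) :
    lab (padA A i) (padA B j) true (Sum.inr i) ∧ lab (padA A i) (padA B j) false (Sum.inr j) := by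
  simp [lab, padA, h, h.symm]

theorem altL_inl {A B : α → Prop} {i j : ℕ} {b : Bool} {l : List α} :
    AltL (padA A i) (padA B j) b (l.map Sum.inl) ↔ AltL A B b l :=
  altL_map (fun _ _ => Iff.rfl) (fun _ _ => Iff.rfl)

/-- Inserting two pads that are in the same gap. -/
theorem insert_pads {f : α ⊕ ℕ → ℤ} {A B : α → Prop} {l : List α} {p q : ℕ} (hp : p < k)
    (hq : q < k) (hpq : f (Sum.inr p) < f (Sum.inr q)) (hA : A ∈ E) (hB : B ∈ E)
    (hS : ∀ x ∈ l, S x) (hs : l.Pairwise (fun x y => f (Sum.inl x) < f (Sum.inl y)))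
    (hl : AltL A B true l)
    (hg : ∀ x, S x → f (Sum.inl x) < f (Sum.inr p) ∨ f (Sum.inr q) < f (Sum.inl x)) :
    ∃ A' ∈ padEdges E k, ∃ B' ∈ padEdges E k, Alt (l.length + 2) f (padS S k) A' B' := by
  obtain ⟨l1, l2, e, h1, h2⟩ := split_sorted (f := fun x => f (Sum.inl x)) hs (f (Sum.inr p))
    (f (Sum.inr q)) (fun x hx => hg x (hS x hx))
  subst e
  have hne : p ≠ q := by rintro rfl; exact lt_irrefl _ hpq
  have hsort : (l1.map Sum.inl ++ ([Sum.inr p, Sum.inr q] ++ l2.map Sum.inl)).Pairwise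
      (fun x y => f x < f y) := by
    rw [List.pairwise_append] at hs
    refine pairwise_app (List.pairwise_map.2 hs.1) (pairwise_app (by simpa using hpq)
      (List.pairwise_map.2 hs.2.1) ?_) ?_
    · intro x hx y hy
      obtain ⟨z, hz, rfl⟩ := List.mem_map.1 hy
      have h3 : f (Sum.inr q) < f (Sum.inl z) := h2 z hz
      simp only [List.mem_cons, List.not_mem_nil, or_false] at hx
      rcases hx with rfl | rfl <;> omega
    · intro x hx y hy
      obtain ⟨w, hw, rfl⟩ := List.mem_map.1 hx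
      have h3 : f (Sum.inl w) < f (Sum.inr p) := h1 w hw
      rcases List.mem_append.1 hy with hy | hy
      · simp only [List.mem_cons, List.not_mem_nil, or_false] at hy
        rcases hy with rfl | rfl <;> omega
      · obtain ⟨z, hz, rfl⟩ := List.mem_map.1 hy
        exact hs.2.2 w hw z hz
  have hmem : ∀ x ∈ l1.map Sum.inl ++ ([Sum.inr p, Sum.inr q] ++ l2.map Sum.inl), padS S k x := by
    intro x hx
    rcases List.mem_append.1 hx with hx | hx
    · obtain ⟨w, hw, rfl⟩ := List.mem_map.1 hx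
      exact hS w (List.mem_append_left _ hw)
    · rcases List.mem_append.1 hx with hx | hx
      · simp only [List.mem_cons, List.not_mem_nil, or_false] at hx
        rcases hx with rfl | rfl
        · exact hp
        · exact hq
      · obtain ⟨w, hw, rfl⟩ := List.mem_map.1 hx
        exact hS w (List.mem_append_right _ hw)
  rw [altL_append] at hl
  cases hc : flipN l1.length true with
  | true =>
    rw [hc] at hl
    refine ⟨padA A p, Or.inl ⟨A, hA, p, hp, rfl⟩, padA B q, Or.inl ⟨B, hB, q, hq, rfl⟩,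
      _, ?_, hmem, hsort, ?_⟩
    · simp; omega
    · rw [altL_append, altL_append, altL_inl, altL_inl, List.length_map, hc]
      refine ⟨hl.1, ⟨(lab_pad_ne hne).1, (lab_pad_ne hne).2, trivial⟩, ?_⟩
      simpa [flipN] using hl.2
  | false =>
    rw [hc] at hl
    refine ⟨padA A q, Or.inl ⟨A, hA, q, hq, rfl⟩, padA B p, Or.inl ⟨B, hB, p, hp, rfl⟩,
      _, ?_, hmem, hsort, ?_⟩
    · simp; omega
    · rw [altL_append, altL_append, altL_inl, altL_inl, List.length_map, hc]
      refine ⟨hl.1, ⟨(lab_pad_ne hne.symm).2, (lab_pad_ne hne.symm).1, trivial⟩, ?_⟩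
      simpa [flipN] using hl.2

/-- Pads that are pairwise separated give a long alternating sequence. -/
theorem chain {f : α ⊕ ℕ → ℤ} (hf : Set.InjOn f {x | padS S k x})
    (hsep : ∀ p q, p < k → q < k → f (Sum.inr p) < f (Sum.inr q) →
      ∃ x, S x ∧ f (Sum.inr p) < f (Sum.inl x) ∧ f (Sum.inl x) < f (Sum.inr q)) :
    ∀ (n : ℕ) (F : Finset ℕ), F.card = n + 1 → (∀ i ∈ F, i < k) →
      ∃ m ∈ F, (∀ i ∈ F, f (Sum.inr m) ≤ f (Sum.inr i)) ∧ ∃ l : List (α ⊕ ℕ),
        l.length = 2 * n ∧ (∀ x ∈ l, padS S k x ∧ f (Sum.inr m) < f x) ∧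
        l.Pairwise (fun x y => f x < f y) ∧ AltL (padV false) (padV true) false l := by
  intro n
  induction n with
  | zero =>
    intro F hF hk
    obtain ⟨m, rfl⟩ := Finset.card_eq_one.1 hF
    exact ⟨m, by simp, by simp, [], by simp, by simp, by simp, trivial⟩
  | succ n ih =>
    intro F hF hk
    have hne : F.Nonempty := Finset.card_pos.1 (by omega)
    obtain ⟨m, hm, hmin⟩ := Finset.exists_min_image F (fun i => f (Sum.inr i)) hne
    obtain ⟨m', hm', hmin', l, hl, hmem, hs, ha⟩ := ih (F.erase m)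
      (by rw [Finset.card_erase_of_mem hm]; omega)
      (fun i hi => hk i (Finset.mem_of_mem_erase hi))
    have h1 : f (Sum.inr m) < f (Sum.inr m') := by
      refine lt_of_le_of_ne (hmin m' (Finset.mem_of_mem_erase hm')) ?_
      intro h
      have := hf (show (Sum.inr m : α ⊕ ℕ) ∈ {x | padS S k x} from hk m hm)
        (show (Sum.inr m' : α ⊕ ℕ) ∈ {x | padS S k x} from hk m' (Finset.mem_of_mem_erase hm')) h
      simp only [Sum.inr.injEq] at this
      exact Finset.ne_of_mem_erase hm' this.symm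
    obtain ⟨x, hx, hx1, hx2⟩ := hsep m m' (hk m hm) (hk m' (Finset.mem_of_mem_erase hm')) h1
    refine ⟨m, hm, hmin, Sum.inl x :: Sum.inr m' :: l, ?_, ?_, ?_, ?_⟩
    · simp [hl]; omega
    · intro y hy
      simp only [List.mem_cons] at hy
      rcases hy with rfl | rfl | hy
      · exact ⟨hx, hx1⟩
      · exact ⟨hk m' (Finset.mem_of_mem_erase hm'), h1⟩
      · exact ⟨(hmem y hy).1, h1.trans (hmem y hy).2⟩
    · rw [List.pairwise_cons, List.pairwise_cons]
      refine ⟨?_, fun y hy => (hmem y hy).2, hs⟩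
      intro y hy
      rcases List.mem_cons.1 hy with rfl | hy
      · exact hx2
      · exact hx2.trans (hmem y hy).2
    · exact ⟨by simp [lab, padV], by simp [lab, padV], ha⟩

/-- Two pads in the same gap. -/
theorem same_gap {f : α ⊕ ℕ → ℤ} (hf : Set.InjOn f {x | padS S k x}) (hk : t + 2 ≤ k)
    (hno : ¬ Alt (t + 2) f (padS S k) (padV false) (padV true)) :
    ∃ p q, p < k ∧ q < k ∧ f (Sum.inr p) < f (Sum.inr q) ∧
      ∀ x, S x → f (Sum.inl x) < f (Sum.inr p) ∨ f (Sum.inr q) < f (Sum.inl x) := by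
  by_contra hcon
  push Not at hcon
  apply hno
  have hsep : ∀ p q, p < k → q < k → f (Sum.inr p) < f (Sum.inr q) →
      ∃ x, S x ∧ f (Sum.inr p) < f (Sum.inl x) ∧ f (Sum.inl x) < f (Sum.inr q) := by
    intro p q hp hq hpq
    obtain ⟨x, hx, h1, h2⟩ := hcon p q hp hq hpq
    refine ⟨x, hx, lt_of_le_of_ne h1 ?_, lt_of_le_of_ne h2 ?_⟩
    · intro h
      have := hf (show (Sum.inr p : α ⊕ ℕ) ∈ {x | padS S k x} from hp)
        (show (Sum.inl x : α ⊕ ℕ) ∈ {x | padS S k x} from hx) h
      simp at this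
    · intro h
      have := hf (show (Sum.inl x : α ⊕ ℕ) ∈ {x | padS S k x} from hx)
        (show (Sum.inr q : α ⊕ ℕ) ∈ {x | padS S k x} from hq) h
      simp at this
  obtain ⟨m, hm, -, l, hl, hmem, hs, ha⟩ := chain hf hsep (k - 1) (Finset.range k)
    (by rw [Finset.card_range]; omega) (fun i hi => Finset.mem_range.1 hi)
  refine Alt.of_le (l := Sum.inr m :: l) (by simp [hl]; omega) ?_ ?_ ?_
  · intro x hx
    rcases List.mem_cons.1 hx with rfl | hx
    · exact Finset.mem_range.1 hm
    · exact (hmem x hx).1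
  · rw [List.pairwise_cons]
    exact ⟨fun y hy => (hmem y hy).2, hs⟩
  · exact ⟨by simp [lab, padV], ha⟩

/-- Detection, `t + 2`. -/
theorem pads_back (hk : t + 2 ≤ k) (h : GFree (t + 2) (padS S k) (padEdges E k)) :
    GFree t S E := by
  obtain ⟨f, hf, hfree⟩ := h
  refine ⟨fun x => f (Sum.inl x), ?_, ?_⟩
  · intro x hx y hy hxy
    have := hf (show (Sum.inl x : α ⊕ ℕ) ∈ {x | padS S k x} from hx)
        (show (Sum.inl y : α ⊕ ℕ) ∈ {x | padS S k x} from hy) hxy
    simpa using this
  · rintro A hA B hB ⟨l, hl, hS, hs, ha⟩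
    obtain ⟨p, q, hp, hq, hpq, hg⟩ := same_gap hf hk
      (hfree _ (Or.inr ⟨false, rfl⟩) _ (Or.inr ⟨true, rfl⟩))
    obtain ⟨A', hA', B', hB', hcon⟩ := insert_pads hp hq hpq hA hB hS hs ha hg
    rw [hl] at hcon
    exact hfree A' hA' B' hB' hcon

/-- For the pairs of edges that are not both of the form `A ∪ {p}` the old vertices have only one
label, and so have the pads. -/
theorem other_pairs {A' B' : α ⊕ ℕ → Prop} (hA : A' ∈ padEdges E k) (hB : B' ∈ padEdges E k)
    (h : ¬ ∃ A ∈ E, ∃ B ∈ E, ∃ i j, i < k ∧ j < k ∧ A' = padA A i ∧ B' = padA B j) :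
    (∃ c, ∀ x : α, ¬ lab A' B' c (Sum.inl x)) ∧ ∃ c, ∀ i : ℕ, ¬ lab A' B' c (Sum.inr i) := by
  rcases hA with ⟨A, hA, i, hi, rfl⟩ | ⟨b, rfl⟩
  · rcases hB with ⟨B, hB, j, hj, rfl⟩ | ⟨b, rfl⟩
    · exact absurd ⟨A, hA, B, hB, i, j, hi, hj, rfl, rfl⟩ h
    · cases b with
      | true => exact ⟨⟨true, by simp [lab, padV]⟩, ⟨false, by simp [lab, padV]⟩⟩
      | false => exact ⟨⟨false, by simp [lab, padV]⟩, ⟨true, by simp [lab, padV]⟩⟩
  · rcases hB with ⟨B, hB, j, hj, rfl⟩ | ⟨b', rfl⟩
    · cases b with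
      | true => exact ⟨⟨false, by simp [lab, padV]⟩, ⟨true, by simp [lab, padV]⟩⟩
      | false => exact ⟨⟨true, by simp [lab, padV]⟩, ⟨false, by simp [lab, padV]⟩⟩
    · cases b <;> cases b'
      · exact ⟨⟨true, by simp [lab, padV]⟩, ⟨true, by simp [lab, padV]⟩⟩
      · exact ⟨⟨true, by simp [lab, padV]⟩, ⟨false, by simp [lab, padV]⟩⟩
      · exact ⟨⟨false, by simp [lab, padV]⟩, ⟨true, by simp [lab, padV]⟩⟩
      · exact ⟨⟨true, by simp [lab, padV]⟩, ⟨true, by simp [lab, padV]⟩⟩

/-- A list of old vertices. -/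
theorem exists_inl {l : List (α ⊕ ℕ)} (h : ∀ x ∈ l, ∃ y, x = Sum.inl y) :
    ∃ l' : List α, l = l'.map Sum.inl := by
  induction l with
  | nil => exact ⟨[], rfl⟩
  | cons x l ih =>
    obtain ⟨y, rfl⟩ := h x (by simp)
    obtain ⟨l', rfl⟩ := ih (fun z hz => h z (by simp [hz]))
    exact ⟨y :: l', rfl⟩

/-- Old vertices in an alternating sequence for two edges `A ∪ {p}`, `B ∪ {q}`. -/
theorem old_part {f : α → ℤ} {g : α ⊕ ℕ → ℤ} {A B : α → Prop} {i j : ℕ} {b : Bool}
    {l : List (α ⊕ ℕ)} (hfree : ∀ A ∈ E, ∀ B ∈ E, ¬ Alt t f S A B) (hA : A ∈ E) (hB : B ∈ E)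
    (hg : ∀ x, g (Sum.inl x) = f x) (hl : ∀ x ∈ l, ∃ y, x = Sum.inl y)
    (hS : ∀ x ∈ l, padS S k x) (hs : l.Pairwise (fun x y => g x < g y))
    (ha : AltL (padA A i) (padA B j) b l) : l.length < t := by
  by_contra hcon
  push Not at hcon
  obtain ⟨l', rfl⟩ := exists_inl hl
  rw [altL_inl] at ha
  rw [List.pairwise_map] at hs
  rcases Alt.of_le' (S := S) (f := f) (t := t) (by simpa using hcon)
    (fun x hx => hS (Sum.inl x) (List.mem_map.2 ⟨x, hx, rfl⟩))
    (by simpa only [hg] using hs) ha with h | h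
  · exact hfree A hA B hB h
  · exact hfree B hB A hA h

theorem bdd_of_finite {f : α → ℤ} (hfin : {x | S x}.Finite) :
    ∃ C, ∀ x, S x → -C < f x ∧ f x < C := by
  obtain ⟨C, hC⟩ := (hfin.image (fun x => |f x|)).bddAbove
  refine ⟨C + 1, fun x hx => ?_⟩
  have h := hC ⟨x, hx, rfl⟩
  simp only at h
  have := abs_le.1 h
  omega

/-- Construction of the order, `t + 2`. -/
theorem pads_forth (ht : 1 ≤ t) (hfin : {x | S x}.Finite) (h : GFree t S E) :
    GFree (t + 2) (padS S k) (padEdges E k) := by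
  obtain ⟨f, hf, hfree⟩ := h
  obtain ⟨C, hC⟩ := bdd_of_finite (f := f) hfin
  have hbound : ∀ x, padS S k x → Sum.elim f (fun i : ℕ => C + i) x < C ∨
      C - 1 < Sum.elim f (fun i : ℕ => C + i) x := by
    rintro (x | i) hx
    · exact Or.inl (hC x hx).2
    · right; simp only [Sum.elim_inr]; omega
  refine ⟨Sum.elim f (fun i : ℕ => C + i), ?_, ?_⟩
  · rintro (x | i) hx (y | j) hy hxy
    · simp only [Sum.elim_inl] at hxy
      rw [hf hx hy hxy]
    · exfalso
      have := (hC x hx).2
      simp only [Sum.elim_inl, Sum.elim_inr] at hxy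
      omega
    · exfalso
      have := (hC y hy).2
      simp only [Sum.elim_inl, Sum.elim_inr] at hxy
      omega
    · simp only [Sum.elim_inr] at hxy
      congr 1
      omega
  · rintro A' hA' B' hB' ⟨l, hl, hS, hs, ha⟩
    obtain ⟨l1, l2, rfl, h1, h2⟩ := split_sorted hs C (C - 1) (fun x hx => hbound x (hS x hx))
    rw [altL_append] at ha
    rw [List.pairwise_append] at hs
    have hold : ∀ x ∈ l1, ∃ y, x = Sum.inl y := by
      rintro (x | i) hx
      · exact ⟨x, rfl⟩
      · have := h1 _ hx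
        simp only [Sum.elim_inr] at this
        omega
    have hpad : ∀ x ∈ l2, ∃ i, x = Sum.inr i := by
      rintro (x | i) hx
      · have := h2 _ hx
        have h3 := (hC x (hS (Sum.inl x) (by simp [hx]))).2
        simp only [Sum.elim_inl] at this
        omega
      · exact ⟨i, rfl⟩
    rw [List.length_append] at hl
    by_cases hpair : ∃ A ∈ E, ∃ B ∈ E, ∃ i j, i < k ∧ j < k ∧ A' = padA A i ∧ B' = padA B j
    · obtain ⟨A, hA, B, hB, i, j, hi, hj, rfl, rfl⟩ := hpair
      have e1 := old_part (k := k) hfree hA hB (g := Sum.elim f (fun i : ℕ => C + i))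
        (fun _ => rfl) hold (fun x hx => hS x (by simp [hx])) hs.1 ha.1
      have e2 : l2.length ≤ 2 := by
        have hsub : ∀ x ∈ l2, x = Sum.inr i ∨ x = Sum.inr j := by
          have key : ∀ (b : Bool) (l : List (α ⊕ ℕ)), AltL (padA A i) (padA B j) b l →
              ∀ x ∈ l, (∃ m, x = Sum.inr m) → x = Sum.inr i ∨ x = Sum.inr j := by
            intro b l
            induction l generalizing b with
            | nil => simp
            | cons y l ih =>
              intro h x hx hm
              rcases List.mem_cons.1 hx with rfl | hx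
              · obtain ⟨m, rfl⟩ := hm
                have := h.1
                cases b <;> simp only [lab, padA, Sum.elim_inr, if_true, Bool.false_eq_true,
                  if_false] at this
                · right; rw [this.1]
                · left; rw [this.1]
              · exact ih _ h.2 x hx hm
          intro x hx
          exact key _ _ ha.2 x hx (hpad x hx)
        have hnd : l2.Nodup := hs.2.1.imp (fun h => by rintro rfl; exact lt_irrefl _ h)
        by_contra hlen
        push Not at hlen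
        match l2, hlen, hsub, hnd with
        | x :: y :: z :: l, _, hsub, hnd =>
          have a1 := hsub x (by simp)
          have a2 := hsub y (by simp)
          have a3 := hsub z (by simp)
          simp only [List.nodup_cons, List.mem_cons, not_or] at hnd
          rcases a1 with rfl | rfl <;> rcases a2 with rfl | rfl <;> rcases a3 with rfl | rfl <;>
            simp at hnd
      omega
    · obtain ⟨⟨c, hc⟩, ⟨c', hc'⟩⟩ := other_pairs hA' hB' hpair
      have e1 := altL_mono c ha.1 (fun x hx => by obtain ⟨y, rfl⟩ := hold x hx; exact hc y)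
      have e2 := altL_mono c' ha.2 (fun x hx => by obtain ⟨y, rfl⟩ := hpad x hx; exact hc' y)
      omega

end Q200.HGA
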