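import Pool.Agent.Q200.HGA.Pads

/-!
# From length four to length five with two pads
-/

set_option autoImplicit false

namespace Q200.HGA

variable {α : Type} {S : α → Prop} {E : Set (α → Prop)}

/-- One order of the two pads. -/
theorem detect5 {f : α ⊕ ℕ → ℤ} (hf : Set.InjOn f {x | padS S 2 x})
    (hfree : ∀ A ∈ padEdges E 2, ∀ B ∈ padEdges E 2, ¬ Alt 5 f (padS S 2) A B)
    {A B : α → Prop} {p q : ℕ} (hp : p < 2)
    (hq : q < 2) (hpq : f (Sum.inr p) < f (Sum.inr q)) (hA : A ∈ E) (hB : B ∈ E)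
    {l : List α} (hl : l.length = 4)
    (hS : ∀ x ∈ l, S x) (hs : l.Pairwise (fun x y => f (Sum.inl x) < f (Sum.inl y)))
    (ha : AltL A B true l) : False := by
  have hne : p ≠ q := by rintro rfl; exact lt_irrefl _ hpq
  have hfne : ∀ x i, S x → i < 2 → f (Sum.inl x) ≠ f (Sum.inr i) := by
    intro x i hx hi h
    have := hf (show (Sum.inl x : α ⊕ ℕ) ∈ {x | padS S 2 x} from hx)
        (show (Sum.inr i : α ⊕ ℕ) ∈ {x | padS S 2 x} from hi) h
    simp at this
  have hmapS : ∀ x ∈ l.map Sum.inl, padS S 2 x := by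
    intro x hx
    obtain ⟨w, hw, rfl⟩ := List.mem_map.1 hx
    exact hS w hw
  by_cases hg : ∀ x, S x → f (Sum.inl x) < f (Sum.inr p) ∨ f (Sum.inr q) < f (Sum.inl x)
  · obtain ⟨A', hA', B', hB', l', h1, h2, h3, h4⟩ :=
      insert_pads hp hq hpq hA hB hS hs ha hg
    exact hfree A' hA' B' hB' (Alt.of_le (by omega) h2 h3 h4)
  · push Not at hg
    obtain ⟨v, hv, hv1, hv2⟩ := hg
    have hv1 : f (Sum.inr p) < f (Sum.inl v) := lt_of_le_of_ne hv1 (hfne v p hv hp).symm
    have hv2 : f (Sum.inl v) < f (Sum.inr q) := lt_of_le_of_ne hv2 (hfne v q hv hq)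
    by_cases hx : ∃ x ∈ l, f (Sum.inl x) < f (Sum.inr p)
    · by_cases hy : ∃ y ∈ l, f (Sum.inr q) < f (Sum.inl y)
      · obtain ⟨x, hx, hx'⟩ := hx
        obtain ⟨y, hy, hy'⟩ := hy
        refine hfree _ (Or.inr ⟨true, rfl⟩) _ (Or.inr ⟨false, rfl⟩)
          ⟨[Sum.inl x, Sum.inr p, Sum.inl v, Sum.inr q, Sum.inl y], rfl, ?_, ?_, ?_⟩
        · intro z hz
          simp only [List.mem_cons, List.not_mem_nil, or_false] at hz
          rcases hz with rfl | rfl | rfl | rfl | rfl
          · exact hS x hx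
          · exact hp
          · exact hv
          · exact hq
          · exact hS y hy
        · simp only [List.pairwise_cons, List.mem_cons, List.not_mem_nil, or_false,
            forall_eq_or_imp, forall_eq, List.Pairwise.nil, and_true, false_implies,
            implies_true]
          omega
        · simp [AltL, lab, padV]
      · -- append `q`
        push Not at hy
        refine hfree (padA A q) (Or.inl ⟨A, hA, q, hq, rfl⟩) (padA B p)
          (Or.inl ⟨B, hB, p, hp, rfl⟩) ⟨l.map Sum.inl ++ [Sum.inr q], by simp [hl], ?_, ?_, ?_⟩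
        · intro z hz
          rcases List.mem_append.1 hz with hz | hz
          · exact hmapS z hz
          · rw [List.mem_singleton] at hz
            subst hz
            exact hq
        · refine pairwise_app (List.pairwise_map.2 hs) (by simp) ?_
          intro x hx y hy'
          rw [List.mem_singleton] at hy'
          subst hy'
          obtain ⟨w, hw, rfl⟩ := List.mem_map.1 hx
          exact lt_of_le_of_ne (hy w hw) (hfne w q (hS w hw) hq)
        · rw [altL_append, altL_inl, List.length_map, hl]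
          exact ⟨ha, (lab_pad_ne hne.symm).1, trivial⟩
    · -- prepend `p`
      push Not at hx
      refine hfree (padA B p) (Or.inl ⟨B, hB, p, hp, rfl⟩) (padA A q)
          (Or.inl ⟨A, hA, q, hq, rfl⟩) ⟨Sum.inr p :: l.map Sum.inl, by simp [hl], ?_, ?_, ?_⟩
      · intro z hz
        rcases List.mem_cons.1 hz with rfl | hz
        · exact hp
        · exact hmapS z hz
      · rw [List.pairwise_cons]
        refine ⟨?_, List.pairwise_map.2 hs⟩
        intro y hy
        obtain ⟨w, hw, rfl⟩ := List.mem_map.1 hy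
        exact lt_of_le_of_ne (hx w hw) (hfne w p (hS w hw) hp).symm
      · refine ⟨(lab_pad_ne hne).1, ?_⟩
        rw [altL_swap, altL_inl]
        exact ha

theorem pads_back5 (h : GFree 5 (padS S 2) (padEdges E 2)) : GFree 4 S E := by
  obtain ⟨f, hf, hfree⟩ := h
  refine ⟨fun x => f (Sum.inl x), ?_, ?_⟩
  · intro x hx y hy hxy
    have := hf (show (Sum.inl x : α ⊕ ℕ) ∈ {x | padS S 2 x} from hx)
        (show (Sum.inl y : α ⊕ ℕ) ∈ {x | padS S 2 x} from hy) hxy
    simpa using this
  · rintro A hA B hB ⟨l, hl, hS, hs, ha⟩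
    have h01 : f (Sum.inr 0) ≠ f (Sum.inr 1) := by
      intro h
      have := hf (show (Sum.inr 0 : α ⊕ ℕ) ∈ {x | padS S 2 x} from (by norm_num : (0 : ℕ) < 2))
        (show (Sum.inr 1 : α ⊕ ℕ) ∈ {x | padS S 2 x} from (by norm_num : (1 : ℕ) < 2)) h
      simp at this
    rcases lt_or_gt_of_ne h01 with h | h
    · exact detect5 hf hfree (by norm_num) (by norm_num) h hA hB hl hS hs ha
    · exact detect5 hf hfree (by norm_num) (by norm_num) h hA hB hl hS hs ha

/-- The order for the length five. -/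
theorem pads_forth5 (hfin : {x | S x}.Finite) (h : GFree 4 S E) :
    GFree 5 (padS S 2) (padEdges E 2) := by
  obtain ⟨f, hf, hfree⟩ := h
  obtain ⟨C, hC⟩ := bdd_of_finite (f := f) hfin
  -- enlarge the constant
  obtain ⟨C, hCpos, hC⟩ : ∃ C : ℤ, 0 < C ∧ ∀ x, S x → -C < f x ∧ f x < C := by
    refine ⟨max C 1, by omega, fun x hx => ?_⟩
    have := hC x hx
    omega
  -- pad `0` to the left, pad `1` to the right
  let h : ℕ → ℤ := fun i => if i = 0 then -C else if i = 1 then C else C + i
  have h0 : h 0 = -C := rfl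
  have h1 : h 1 = C := rfl
  have hcase : ∀ x, padS S 2 x → (∃ y, x = Sum.inl y ∧ S y ∧ -C < Sum.elim f h x ∧
      Sum.elim f h x < C) ∨ (x = Sum.inr 0 ∧ Sum.elim f h x = -C) ∨
      (x = Sum.inr 1 ∧ Sum.elim f h x = C) := by
    rintro (x | i) hx
    · exact Or.inl ⟨x, rfl, hx, (hC x hx).1, (hC x hx).2⟩
    · have hi : i < 2 := hx
      interval_cases i
      · exact Or.inr (Or.inl ⟨rfl, h0⟩)
      · exact Or.inr (Or.inr ⟨rfl, h1⟩)
  refine ⟨Sum.elim f h, ?_, ?_⟩
  · intro x hx y hy hxy
    rcases hcase x hx with ⟨x', rfl, hx1, hx2, hx3⟩ | ⟨rfl, e1⟩ | ⟨rfl, e1⟩ <;>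
      rcases hcase y hy with ⟨y', rfl, hy1, hy2, hy3⟩ | ⟨rfl, e2⟩ | ⟨rfl, e2⟩ <;>
      first
        | rfl
        | (exfalso; omega)
        | skip
    simp only [Sum.elim_inl] at hxy
    rw [hf hx1 hy1 hxy]
  · rintro A' hA' B' hB' ⟨l, hl, hS, hs, ha⟩
    obtain ⟨l0, l', rfl, g1, g2⟩ := split_sorted hs (-C + 1) (-C) (by
      intro x hx
      rcases hcase x (hS x hx) with ⟨y, -, -, e1, e2⟩ | ⟨-, e⟩ | ⟨-, e⟩ <;> omega)
    rw [List.pairwise_append] at hs
    obtain ⟨l1, l2, rfl, g3, g4⟩ := split_sorted hs.2.1 C (C - 1) (by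
      intro x hx
      rcases hcase x (hS x (by simp [hx])) with ⟨y, -, -, e1, e2⟩ | ⟨-, e⟩ | ⟨-, e⟩ <;> omega)
    have hs2 := List.pairwise_append.1 hs.2.1
    rw [altL_append, altL_append] at ha
    simp only [List.length_append] at hl
    have p0 : ∀ x ∈ l0, x = Sum.inr 0 := by
      intro x hx
      have := g1 x hx
      rcases hcase x (hS x (by simp [hx])) with ⟨y, -, -, e1, e2⟩ | ⟨e, -⟩ | ⟨-, e⟩
      · omega
      · exact e
      · omega
    have p1 : ∀ x ∈ l1, ∃ y, x = Sum.inl y := by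
      intro x hx
      have k1 := g3 x hx
      have k2 := g2 x (by simp [hx])
      rcases hcase x (hS x (by simp [hx])) with ⟨y, e, -⟩ | ⟨-, e⟩ | ⟨-, e⟩
      · exact ⟨y, e⟩
      · omega
      · omega
    have p2 : ∀ x ∈ l2, x = Sum.inr 1 := by
      intro x hx
      have k1 := g4 x hx
      rcases hcase x (hS x (by simp [hx])) with ⟨y, -, -, e1, e2⟩ | ⟨-, e⟩ | ⟨e, -⟩
      · omega
      · omega
      · exact e
    have q0 : l0.length ≤ 1 := by
      match l0, p0, hs.1 with
      | [], _, _ => simp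
      | [_], _, _ => simp
      | x :: y :: l, hp, hss =>
        exfalso
        rw [hp x (by simp), hp y (by simp)] at hss
        simp at hss
    have q2 : l2.length ≤ 1 := by
      match l2, p2, hs2.2.1 with
      | [], _, _ => simp
      | [_], _, _ => simp
      | x :: y :: l, hp, hss =>
        exfalso
        rw [hp x (by simp), hp y (by simp)] at hss
        simp at hss
    by_cases hpair : ∃ A ∈ E, ∃ B ∈ E, ∃ i j, i < 2 ∧ j < 2 ∧ A' = padA A i ∧ B' = padA B j
    · obtain ⟨A, hA, B, hB, i, j, hi, hj, rfl, rfl⟩ := hpair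
      have e1 := old_part (k := 2) hfree hA hB (g := Sum.elim f h)
        (fun _ => rfl) p1 (fun x hx => hS x (by simp [hx])) hs2.1 ha.2.1
      have e0 : l0.length = 1 := by omega
      have e2 : l2.length = 1 := by omega
      have e3 : l1.length = 3 := by omega
      obtain ⟨x0, rfl⟩ := List.length_eq_one_iff.1 e0
      obtain ⟨x2, rfl⟩ := List.length_eq_one_iff.1 e2
      have r0 := p0 x0 (by simp)
      have r2 := p2 x2 (by simp)
      subst r0 r2
      have s0 := ha.1.1
      have s2 := ha.2.2.1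
      rw [e3] at s2
      simp only [List.length_singleton, flipN, Bool.not_true, Bool.not_false, lab, if_true, padA,
        Sum.elim_inr] at s0 s2
      omega
    · obtain ⟨⟨c, hc⟩, -⟩ := other_pairs hA' hB' hpair
      have e1 := altL_mono c ha.2.1 (fun x hx => by obtain ⟨y, rfl⟩ := p1 x hx; exact hc y)
      omega

end Q200.HGA
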